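import Mathlib

/-!
# MP_6f99f7_mp: pseudo-concavity of qubit mutual information along a Helstrom-matrix family

For every qubit dichotomy `(ρ, σ; p₀, p₁)` the mutual information `I(λ)` of the measurement in an
eigenbasis of `H(λ) = λ ω - (ρ - σ)` is pseudo-concave on `[-λ_*, λ_*]`.

Proof.  In Bloch coordinates `I` is a Jensen gap and, by Peano's kernel formula,
`I = ∫ k(x) / Q(t,x) dx` with a tent function `k` and a quadratic polynomial `Q` for which `Q / k` is
jointly convex.  With `φ = Q/k`, `W(y) = ∫_s^y (φ_t/φ² - c/φ)` and the explicit map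
`T(y) = y + (v - u) φ(u,y) W(y)` the tangent inequality for `φ` gives
`f(u) f(v) ≤ f(u)² + (r - s) max(0, (v - u) f'(u))`, which passes to the closed interval and implies
pseudo-concavity.
-/

open Real Set MeasureTheory intervalIntegral Matrix
open scoped ComplexOrder

set_option maxHeartbeats 4000000

namespace Pool.Agent.Results.MP_6f99f7_mp.PseudoConcave

noncomputable section

/-- Complex `2 × 2` matrices. -/
abbrev M2 := Matrix (Fin 2) (Fin 2) ℂ

/-- Density matrices on `ℂ²`: positive semidefinite of trace one. -/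
def IsDensity (ρ : M2) : Prop := ρ.PosSemidef ∧ ρ.trace = 1

/-- `Tr (A B)`, as a real number. -/
def tr (A B : M2) : ℝ := (A * B).trace.re

/-- the coefficient `μ` -/
def mu (ρ σ : M2) : ℝ := (tr σ σ - tr ρ σ) / tr (ρ - σ) (ρ - σ)

/-- `ω = μ ρ + (1 - μ) σ` -/
def omega (ρ σ : M2) : M2 := mu ρ σ • ρ + (1 - mu ρ σ) • σ

/-- `H(λ) = λ ω - (ρ - σ)` -/
def HH (ρ σ : M2) (l : ℝ) : M2 := l • omega ρ σ - (ρ - σ)

/-- `λ_*` -/
def lamStar (ρ σ : M2) : ℝ :=
  tr (ρ - σ) (ρ - σ) / √(tr (ρ - σ) (ρ - σ) - tr ρ ρ * tr σ σ + tr ρ σ ^ 2)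

/-- `P 0, P 1` are the rank-one orthogonal projectors onto the members of an orthonormal basis of
eigenvectors of `A`. -/
structure IsEigenMeasurement (A : M2) (P : Fin 2 → M2) : Prop where
  herm : ∀ y, (P y).IsHermitian
  idem : ∀ y, P y * P y = P y
  trace_one : ∀ y, (P y).trace = 1
  sum_one : P 0 + P 1 = 1
  eigen : ∀ y, ∃ c : ℂ, A * P y = c • P y

/-- The joint distribution `P(x,y) = p_x Tr(ρ_x Π_y)`. -/
def joint (ρ σ : M2) (p : Fin 2 → ℝ) (P : Fin 2 → M2) (x y : Fin 2) : ℝ :=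
  p x * tr (![ρ, σ] x) (P y)

/-- Shannon mutual information (in nats) of a joint distribution on `{0,1}²`. -/
def mutualInfo (J : Fin 2 → Fin 2 → ℝ) : ℝ :=
  ∑ x, ∑ y, J x y * log (J x y / ((∑ y', J x y') * ∑ x', J x' y))

/-- pseudo-concavity on a set (one-sided derivatives at endpoints of an interval) -/
def PseudoConcaveOn (f : ℝ → ℝ) (J : Set ℝ) : Prop :=
  DifferentiableOn ℝ f J ∧
    ∀ x ∈ J, ∀ y ∈ J, derivWithin f J x * (y - x) ≤ 0 → f y ≤ f x


def Q (η t x : ℝ) : ℝ := 1 + η * t ^ 2 - (η * t - x) ^ 2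
def Qt (η t x : ℝ) : ℝ := 2 * η * t - 2 * η * (η * t - x)
def Qx (η t x : ℝ) : ℝ := 2 * (η * t - x)

lemma Q_eq (η t x : ℝ) : Q η t x = η * (1 + x * t) ^ 2 + (1 + η * t ^ 2) * (1 - η - x ^ 2) := by
  unfold Q; ring

lemma Q_nonneg {η t x : ℝ} (h0 : 0 ≤ η) (hx : x ^ 2 ≤ 1 - η) : 0 ≤ Q η t x := by
  rw [Q_eq]
  have : 0 ≤ 1 - η - x ^ 2 := by linarith
  positivity

lemma Q_lower {η t x : ℝ} (h0 : 0 ≤ η) :
    1 - η - x ^ 2 ≤ (1 - η) * Q η t x := by
  have : (1 - η) * Q η t x = (1 - η - x ^ 2) + η * ((1 - η) * t + x) ^ 2 := by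
    unfold Q; ring
  rw [this]
  have : 0 ≤ η * ((1 - η) * t + x) ^ 2 := by positivity
  linarith

lemma Q_pos {η t x : ℝ} (h0 : 0 < η) (h1 : η < 1) (hx : x ^ 2 ≤ 1 - η)
    (ht : (1 - η) * t ^ 2 < 1) : 0 < Q η t x := by
  have key : (1 - η) * Q η t x = (1 - η - x ^ 2) + η * ((1 - η) * t + x) ^ 2 := by
    unfold Q; ring
  by_contra h
  push Not at h
  have h2 : (1 - η) * Q η t x ≤ 0 := mul_nonpos_of_nonneg_of_nonpos (by linarith) h
  have h3 : 0 ≤ η * ((1 - η) * t + x) ^ 2 := by positivity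
  have h4 : x ^ 2 = 1 - η := by linarith
  have h5 : η * ((1 - η) * t + x) ^ 2 = 0 := by linarith
  have h6 : (1 - η) * t + x = 0 := by
    rcases mul_eq_zero.mp h5 with h | h
    · exact absurd h h0.ne'
    · exact pow_eq_zero_iff (by norm_num) |>.mp h
  have h7 : x = -((1 - η) * t) := by linarith
  rw [h7] at h4
  have h8 : (1 - η) * ((1 - η) * t ^ 2 - 1) = 0 := by nlinarith
  rcases mul_eq_zero.mp h8 with h | h
  · linarith
  · linarith

lemma tangent_left (η s u v y z : ℝ) :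
    (y - s) ^ 2 * Q η v z - (z - s) * ((y - s) * Q η u y + (y - s) * Qt η u y * (v - u)
      + ((y - s) * Qx η u y - Q η u y) * (z - y))
    = (1 - η - s ^ 2) * (y - z) ^ 2 + (1 - η - s ^ 2) * η * (v * (y - s) - u * (z - s)) ^ 2
      + η * ((1 + s * v) * (y - s) - (1 + s * u) * (z - s)) ^ 2 := by
  unfold Q Qt Qx; ring

lemma hasDerivAt_Q_x (η t x : ℝ) : HasDerivAt (fun x => Q η t x) (Qx η t x) x := by
  unfold Q Qx
  have h : HasDerivAt (fun x : ℝ => 1 + η * t ^ 2 - (η * t - x) ^ 2)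
      (0 - (2 * (η * t - x) ^ 1 * (0 - 1))) x := by
    apply HasDerivAt.sub (hasDerivAt_const _ _)
    exact ((hasDerivAt_const x (η * t)).sub (hasDerivAt_id x)).pow 2
  convert h using 1; ring

lemma hasDerivAt_Q_t (η t x : ℝ) : HasDerivAt (fun t => Q η t x) (Qt η t x) t := by
  unfold Q Qt
  have h : HasDerivAt (fun t : ℝ => 1 + η * t ^ 2 - (η * t - x) ^ 2)
      ((0 + η * (2 * t ^ 1 * 1)) - (2 * (η * t - x) ^ 1 * (η * 1 - 0))) t := by
    apply HasDerivAt.sub
    · apply HasDerivAt.add (hasDerivAt_const _ _)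
      exact ((hasDerivAt_id t).pow 2).const_mul η
    · exact (((hasDerivAt_id t).const_mul η).sub (hasDerivAt_const t x)).pow 2
  convert h using 1; ring

theorem left_piece {η s m α u v c M : ℝ} (hη0 : 0 ≤ η) (hs : s ^ 2 ≤ 1 - η) (hsm : s < m)
    (hα : 0 < α) (hQ : ∀ y ∈ Icc s m, 0 < Q η u y)
    {gu w g : ℝ → ℝ} (hgu : Continuous gu)
    (hgu' : ∀ y ∈ Icc s m, gu y = α * (y - s) / Q η u y)
    (hw : Continuous w)
    (hw' : ∀ y ∈ Icc s m, w y = α * (y - s) * Qt η u y / (Q η u y) ^ 2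
      - c * (α * (y - s) / Q η u y))
    (hg : Continuous g) (hg0 : ∀ z, 0 ≤ g z) (hgM : ∀ z, g z ≤ M)
    (hg' : ∀ z, g z = 0 ∨ (s < z ∧ 0 < Q η v z ∧ g z * Q η v z ≤ α * (z - s))) :
    ∫ z in s..(m + (v - u) * (Q η u m / α) * ((∫ x in s..m, w x) / (m - s))), g z
      ≤ (∫ y in s..m, gu y) + max 0 (-(v - u) * c) * M * (m - s) := by
  set W : ℝ → ℝ := fun y => ∫ x in s..y, w x with hW
  have hWd : ∀ y, HasDerivAt W (w y) y := fun y =>
    intervalIntegral.integral_hasDerivAt_right (hw.intervalIntegrable _ _)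
      (hw.stronglyMeasurableAtFilter _ _) hw.continuousAt
  have hWc : Continuous W := continuous_iff_continuousAt.mpr fun y => (hWd y).continuousAt
  have hws : w s = 0 := by
    rw [hw' s ⟨le_refl _, hsm.le⟩]; simp
  have hWs : W s = 0 := by simp [hW]
  set V : ℝ → ℝ := fun y => W y / (y - s) with hV
  have hVc : Continuous V := by
    rw [continuous_iff_continuousAt]
    intro y
    by_cases hy : y = s
    · subst hy
      rw [continuousAt_iff_punctured_nhds]
      have h1 := hasDerivAt_iff_tendsto_slope.mp (hWd y)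
      rw [hws] at h1
      have h2 : V y = 0 := by simp [hV]
      rw [h2]
      refine h1.congr fun z => ?_
      simp only [slope_def_field, hV, hWs, sub_zero]
    · exact (hWc.continuousAt).div (by fun_prop) (sub_ne_zero.mpr hy)
  have hVd : ∀ y, y ≠ s → HasDerivAt V ((w y * (y - s) - W y * 1) / (y - s) ^ 2) y := by
    intro y hy
    exact (hWd y).div ((hasDerivAt_id y).sub_const s) (sub_ne_zero.mpr hy)
  set T : ℝ → ℝ := fun y => y + (v - u) * (Q η u y / α) * V y with hT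
  have hQc : Continuous fun y => Q η u y := by unfold Q; fun_prop
  have hTc : Continuous T := by
    simp only [hT]; fun_prop
  have hTd : ∀ y, y ≠ s → HasDerivAt T (1 + (((v - u) * (Qx η u y / α)) * V y
      + ((v - u) * (Q η u y / α)) * ((w y * (y - s) - W y * 1) / (y - s) ^ 2))) y := by
    intro y hy
    refine (hasDerivAt_id y).add ?_
    exact ((((hasDerivAt_Q_x η u y).div_const α).const_mul (v - u))).mul (hVd y hy)
  have hM : 0 ≤ M := le_trans (hg0 0) (hgM 0)
  set B : ℝ := max 0 (-(v - u) * c) * M with hB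
  have hB0 : 0 ≤ B := mul_nonneg (le_max_left _ _) hM
  set D : ℝ → ℝ := fun y => (∫ x in s..y, gu x) - (∫ z in s..T y, g z) + B * (y - s) with hD
  have hKd : ∀ z, HasDerivAt (fun z => ∫ x in s..z, g x) (g z) z := fun z =>
    intervalIntegral.integral_hasDerivAt_right (hg.intervalIntegrable _ _)
      (hg.stronglyMeasurableAtFilter _ _) hg.continuousAt
  have hLd : ∀ z, HasDerivAt (fun z => ∫ x in s..z, gu x) (gu z) z := fun z =>
    intervalIntegral.integral_hasDerivAt_right (hgu.intervalIntegrable _ _)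
      (hgu.stronglyMeasurableAtFilter _ _) hgu.continuousAt
  have hKc : Continuous (fun z => ∫ x in s..z, g x) :=
    continuous_iff_continuousAt.mpr fun y => (hKd y).continuousAt
  have hLc : Continuous (fun z => ∫ x in s..z, gu x) :=
    continuous_iff_continuousAt.mpr fun y => (hLd y).continuousAt
  have hDc : Continuous D := by
    simp only [hD]
    exact (hLc.sub (hKc.comp hTc)).add (by fun_prop)
  have hDd : ∀ y, y ≠ s → HasDerivAt D (gu y - g (T y) * (1 + (((v - u) * (Qx η u y / α)) * V y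
      + ((v - u) * (Q η u y / α)) * ((w y * (y - s) - W y * 1) / (y - s) ^ 2))) + B * 1) y := by
    intro y hy
    refine ((hLd y).sub ?_).add (((hasDerivAt_id y).sub_const s).const_mul B)
    exact HasDerivAt.comp y (hKd (T y)) (hTd y hy)
  have hpos : ∀ y ∈ Ioo s m, 0 ≤ gu y - g (T y) * (1 + (((v - u) * (Qx η u y / α)) * V y
      + ((v - u) * (Q η u y / α)) * ((w y * (y - s) - W y * 1) / (y - s) ^ 2))) + B * 1 := by
    intro y hy
    have hyI : y ∈ Icc s m := ⟨hy.1.le, hy.2.le⟩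
    have hl : 0 < y - s := by linarith [hy.1]
    have hq : 0 < Q η u y := hQ y hyI
    rw [hgu' y hyI]
    have hgu0 : 0 ≤ α * (y - s) / Q η u y := by positivity
    rcases hg' (T y) with h0 | ⟨hz, hqv, hgle⟩
    · rw [h0]; linarith
    · set τ : ℝ := 1 + (v - u) * (Qx η u y * W y / (α * (y - s))
        - Q η u y * W y / (α * (y - s) ^ 2) + Qt η u y / Q η u y) with hτ
      have e1 : (1 + (((v - u) * (Qx η u y / α)) * V y
          + ((v - u) * (Q η u y / α)) * ((w y * (y - s) - W y * 1) / (y - s) ^ 2)))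
          = τ + (-(v - u) * c) := by
        rw [hw' y hyI, hτ, hV]
        field_simp
        ring
      rw [e1]
      have e2 : (y - s) * Q η u y + (y - s) * Qt η u y * (v - u)
          + ((y - s) * Qx η u y - Q η u y) * (T y - y) = (y - s) * Q η u y * τ := by
        rw [hτ]
        simp only [hT, hV]
        field_simp
        ring
      have e3 := tangent_left η s u v y (T y)
      rw [e2] at e3
      have hs' : 0 ≤ 1 - η - s ^ 2 := by linarith
      have e4 : 0 ≤ (1 - η - s ^ 2) * (y - T y) ^ 2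
          + (1 - η - s ^ 2) * η * (v * (y - s) - u * (T y - s)) ^ 2
          + η * ((1 + s * v) * (y - s) - (1 + s * u) * (T y - s)) ^ 2 := by positivity
      rw [← e3] at e4
      have e5 : (T y - s) * Q η u y * τ ≤ (y - s) * Q η v (T y) := by
        have : 0 ≤ (y - s) * ((y - s) * Q η v (T y) - (T y - s) * Q η u y * τ) := by
          linarith
        have := nonneg_of_mul_nonneg_right this hl
        linarith
      have e6 : g (T y) * τ ≤ α * (y - s) / Q η u y := by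
        by_cases hτ0 : τ ≤ 0
        · exact le_trans (mul_nonpos_of_nonneg_of_nonpos (hg0 _) hτ0) hgu0
        · push Not at hτ0
          rw [le_div_iff₀ hq]
          have h1 : g (T y) * Q η v (T y) * (τ * Q η u y) ≤ α * (T y - s) * (τ * Q η u y) :=
            mul_le_mul_of_nonneg_right hgle (by positivity)
          have h2 : α * ((T y - s) * Q η u y * τ) ≤ α * ((y - s) * Q η v (T y)) :=
            mul_le_mul_of_nonneg_left e5 hα.le
          have h3 : (g (T y) * τ * Q η u y) * Q η v (T y) ≤ (α * (y - s)) * Q η v (T y) := by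
            calc (g (T y) * τ * Q η u y) * Q η v (T y)
                = g (T y) * Q η v (T y) * (τ * Q η u y) := by ring
              _ ≤ α * (T y - s) * (τ * Q η u y) := h1
              _ = α * ((T y - s) * Q η u y * τ) := by ring
              _ ≤ α * ((y - s) * Q η v (T y)) := h2
              _ = _ := by ring
          exact le_of_mul_le_mul_right h3 hqv
      have e7 : g (T y) * (-(v - u) * c) ≤ B := by
        rw [hB]
        calc g (T y) * (-(v - u) * c) ≤ g (T y) * max 0 (-(v - u) * c) :=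
              mul_le_mul_of_nonneg_left (le_max_right _ _) (hg0 _)
          _ ≤ M * max 0 (-(v - u) * c) :=
              mul_le_mul_of_nonneg_right (hgM _) (le_max_left _ _)
          _ = _ := mul_comm _ _
      rw [mul_add]
      linarith
  have hmono : MonotoneOn D (Icc s m) := by
    apply monotoneOn_of_deriv_nonneg (convex_Icc s m) hDc.continuousOn
    · rw [interior_Icc]
      intro y hy
      exact (hDd y hy.1.ne').differentiableAt.differentiableWithinAt
    · rw [interior_Icc]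
      intro y hy
      rw [(hDd y hy.1.ne').deriv]
      exact hpos y hy
  have h1 := hmono ⟨le_refl _, hsm.le⟩ ⟨hsm.le, le_refl _⟩ hsm.le
  have hTs : T s = s := by simp [hT, hV]
  have hDs : D s = 0 := by simp [hD, hTs]
  rw [hDs] at h1
  simp only [hD] at h1
  have hTm : T m = m + (v - u) * (Q η u m / α) * ((∫ x in s..m, w x) / (m - s)) := by
    simp [hT, hV, hW]
  rw [hTm] at h1
  linarith


lemma Q_neg (η t x : ℝ) : Q η (-t) x = Q η t (-x) := by unfold Q; ring
lemma Qt_neg (η t x : ℝ) : Qt η (-t) x = - Qt η t (-x) := by unfold Qt; ring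

theorem right_piece {η r m β u v c M : ℝ} (hη0 : 0 ≤ η) (hr : r ^ 2 ≤ 1 - η) (hmr : m < r)
    (hβ : 0 < β) (hQ : ∀ y ∈ Icc m r, 0 < Q η u y)
    {gu w g : ℝ → ℝ} (hgu : Continuous gu)
    (hgu' : ∀ y ∈ Icc m r, gu y = β * (r - y) / Q η u y)
    (hw : Continuous w)
    (hw' : ∀ y ∈ Icc m r, w y = β * (r - y) * Qt η u y / (Q η u y) ^ 2
      - c * (β * (r - y) / Q η u y))
    (hg : Continuous g) (hg0 : ∀ z, 0 ≤ g z) (hgM : ∀ z, g z ≤ M)
    (hg' : ∀ z, g z = 0 ∨ (z < r ∧ 0 < Q η v z ∧ g z * Q η v z ≤ β * (r - z))) :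
    ∫ z in (m + (v - u) * (Q η u m / β) * (-(∫ x in m..r, w x) / (r - m)))..r, g z
      ≤ (∫ y in m..r, gu y) + max 0 (-(v - u) * c) * M * (r - m) := by
  have h := left_piece (η := η) (s := -r) (m := -m) (α := β) (u := -u) (v := -v) (c := -c)
    (M := M) (gu := fun y => gu (-y)) (w := fun y => - w (-y)) (g := fun y => g (-y))
    hη0 (by simpa using hr) (by linarith) hβ
    (by
      intro y hy
      rw [Q_neg]
      exact hQ _ ⟨by linarith [hy.2], by linarith [hy.1]⟩)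
    (by fun_prop)
    (by
      intro y hy
      rw [Q_neg, hgu' _ ⟨by linarith [hy.2], by linarith [hy.1]⟩]
      ring_nf)
    (by fun_prop)
    (by
      intro y hy
      rw [Q_neg, Qt_neg, hw' _ ⟨by linarith [hy.2], by linarith [hy.1]⟩]
      ring)
    (by fun_prop) (fun z => hg0 _) (fun z => hgM _)
    (by
      intro z
      rcases hg' (-z) with h | ⟨h1, h2, h3⟩
      · exact Or.inl h
      · refine Or.inr ⟨by linarith, ?_, ?_⟩
        · rw [Q_neg]; exact h2
        · rw [Q_neg]; linarith)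
  rw [intervalIntegral.integral_comp_neg (fun x => g x),
    intervalIntegral.integral_comp_neg (fun x => gu x), intervalIntegral.integral_neg,
    intervalIntegral.integral_comp_neg (fun x => w x), Q_neg] at h
  simp only [neg_neg] at h
  have e1 : -(-m + (-v - -u) * (Q η u m / β) * ((-∫ (x : ℝ) in m..r, w x) / (-m - -r)))
      = m + (v - u) * (Q η u m / β) * (-(∫ x in m..r, w x) / (r - m)) := by
    have : (-m - -r) = r - m := by ring
    rw [this]; ring
  rw [e1] at h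
  have e2 : max 0 (-(-v - -u) * -c) * M * (-m - -r) = max 0 (-(v - u) * c) * M * (r - m) := by
    have : (-(-v - -u) * -c) = (-(v - u) * c) := by ring
    rw [this]; ring
  rw [e2] at h
  exact h


def kk (s r α β x : ℝ) : ℝ := max 0 (min (α * (x - s)) (β * (r - x)))
def cl (s r x : ℝ) : ℝ := max s (min x r)
def G (η s r α β u x : ℝ) : ℝ := kk s r α β x / Q η u (cl s r x)
def Gw (η s r α β u x : ℝ) : ℝ := kk s r α β x * Qt η u (cl s r x) / (Q η u (cl s r x)) ^ 2

lemma cl_mem {s r : ℝ} (hsr : s < r) (x : ℝ) : cl s r x ∈ Icc s r :=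
  ⟨le_max_left _ _, max_le hsr.le (min_le_right _ _)⟩

lemma cl_eq {s r x : ℝ} (hx : x ∈ Icc s r) : cl s r x = x := by
  unfold cl; rw [min_eq_left hx.2, max_eq_right hx.1]

lemma sq_le_of_mem {s r η x : ℝ} (hs : s ^ 2 ≤ 1 - η) (hr : r ^ 2 ≤ 1 - η)
    (hx : x ∈ Icc s r) : x ^ 2 ≤ 1 - η := by
  rcases le_total 0 x with h | h
  · nlinarith [hx.2]
  · nlinarith [hx.1]

lemma Q_cl_pos {η s r u : ℝ} (hη0 : 0 < η) (hη1 : η < 1) (hs : s ^ 2 ≤ 1 - η)
    (hr : r ^ 2 ≤ 1 - η) (hsr : s < r) (hu : (1 - η) * u ^ 2 < 1) (x : ℝ) :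
    0 < Q η u (cl s r x) :=
  Q_pos hη0 hη1 (sq_le_of_mem hs hr (cl_mem hsr x)) hu

lemma continuous_G {η s r α β u : ℝ} (hη0 : 0 < η) (hη1 : η < 1) (hs : s ^ 2 ≤ 1 - η)
    (hr : r ^ 2 ≤ 1 - η) (hsr : s < r) (hu : (1 - η) * u ^ 2 < 1) :
    Continuous (G η s r α β u) := by
  unfold G
  have h1 : Continuous fun x => kk s r α β x := by unfold kk; fun_prop
  have h2 : Continuous fun x => Q η u (cl s r x) := by unfold Q cl; fun_prop
  exact h1.div h2 fun x => (Q_cl_pos hη0 hη1 hs hr hsr hu x).ne'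

lemma continuous_Gw {η s r α β u : ℝ} (hη0 : 0 < η) (hη1 : η < 1) (hs : s ^ 2 ≤ 1 - η)
    (hr : r ^ 2 ≤ 1 - η) (hsr : s < r) (hu : (1 - η) * u ^ 2 < 1) :
    Continuous (Gw η s r α β u) := by
  unfold Gw
  have h1 : Continuous fun x => kk s r α β x * Qt η u (cl s r x) := by
    unfold kk Qt cl; fun_prop
  have h2 : Continuous fun x => (Q η u (cl s r x)) ^ 2 := by unfold Q cl; fun_prop
  exact h1.div h2 fun x => (pow_pos (Q_cl_pos hη0 hη1 hs hr hsr hu x) 2).ne'

lemma kk_left {s r α β x : ℝ} (hα : 0 < α) (hαβ : α + β = 1)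
    (hx : s ≤ x) (hx' : x ≤ α * s + β * r) : kk s r α β x = α * (x - s) := by
  unfold kk
  have h1 : α * (x - s) ≤ β * (r - x) := by
    have : β * (r - x) - α * (x - s) = (α * s + β * r) - (α + β) * x := by ring
    rw [hαβ] at this; linarith
  rw [min_eq_left h1, max_eq_right (mul_nonneg hα.le (by linarith))]

lemma kk_right {s r α β x : ℝ} (hβ : 0 < β) (hαβ : α + β = 1)
    (hx : x ≤ r) (hx' : α * s + β * r ≤ x) : kk s r α β x = β * (r - x) := by
  unfold kk
  have h1 : β * (r - x) ≤ α * (x - s) := by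
    have : β * (r - x) - α * (x - s) = (α * s + β * r) - (α + β) * x := by ring
    rw [hαβ] at this; linarith
  rw [min_eq_right h1, max_eq_right (mul_nonneg hβ.le (by linarith))]

lemma kk_zero_left {s r α β x : ℝ} (hα : 0 < α) (hx : x ≤ s) : kk s r α β x = 0 := by
  unfold kk
  apply max_eq_left
  exact (min_le_left _ _).trans (mul_nonpos_of_nonneg_of_nonpos hα.le (by linarith))

lemma kk_zero_right {s r α β x : ℝ} (hβ : 0 < β) (hx : r ≤ x) : kk s r α β x = 0 := by
  unfold kk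
  apply max_eq_left
  exact (min_le_right _ _).trans (mul_nonpos_of_nonneg_of_nonpos hβ.le (by linarith))

lemma kk_nonneg (s r α β x : ℝ) : 0 ≤ kk s r α β x := le_max_left _ _

lemma G_nonneg {η s r α β u : ℝ} (hη0 : 0 < η) (hη1 : η < 1) (hs : s ^ 2 ≤ 1 - η)
    (hr : r ^ 2 ≤ 1 - η) (hsr : s < r) (hu : (1 - η) * u ^ 2 < 1) (x : ℝ) :
    0 ≤ G η s r α β u x :=
  div_nonneg (kk_nonneg _ _ _ _ _) (Q_cl_pos hη0 hη1 hs hr hsr hu x).le

lemma kk_le_Q {η s r α β u x : ℝ} (hη0 : 0 < η) (hη1 : η < 1) (hs : s ^ 2 ≤ 1 - η)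
    (hr : r ^ 2 ≤ 1 - η) (hα : 0 < α) (hβ : 0 < β) (hαβ : α + β = 1)
    (hx : x ∈ Icc s r) : kk s r α β x ≤ Q η u x := by
  have h0 : x ^ 2 ≤ 1 - η := sq_le_of_mem hs hr hx
  have hc0 : 0 < 1 - η := by linarith
  set c := √(1 - η) with hc
  have hcs : c ^ 2 = 1 - η := Real.sq_sqrt hc0.le
  have hcpos : 0 < c := Real.sqrt_pos.mpr hc0
  have hc1 : c ≤ 1 := by
    by_contra h
    push Not at h
    nlinarith
  have hxc : |x| ≤ c := abs_le_of_sq_le_sq (by linarith) hcpos.le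
  have hsc : |s| ≤ c := abs_le_of_sq_le_sq (by linarith) hcpos.le
  have hrc : |r| ≤ c := abs_le_of_sq_le_sq (by linarith) hcpos.le
  rw [abs_le] at hxc hsc hrc
  have hl : (1 - η - x ^ 2) ≤ (1 - η) * Q η u x := Q_lower hη0.le
  have hQ0 : 0 ≤ Q η u x := Q_nonneg hη0.le h0
  unfold kk
  apply max_le hQ0
  rcases le_total 0 x with h | h
  · -- use r - x
    refine (min_le_right _ _).trans ?_
    have h1 : β * (r - x) ≤ 1 * (c - x) :=
      mul_le_mul (by linarith) (by linarith [hrc.2]) (by linarith [hx.2]) (by norm_num)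
    have h2 : (1 - η) * (c - x) ≤ 1 - η - x ^ 2 := by
      rw [← hcs]
      have : c ^ 2 - x ^ 2 - c ^ 2 * (c - x) = (c - x) * (c + x - c ^ 2) := by ring
      have h3 : 0 ≤ (c - x) * (c + x - c ^ 2) :=
        mul_nonneg (by linarith [hxc.2]) (by nlinarith)
      linarith
    have h4 : (1 - η) * (c - x) ≤ (1 - η) * Q η u x := h2.trans hl
    have := le_of_mul_le_mul_left h4 hc0
    linarith
  · refine (min_le_left _ _).trans ?_
    have h1 : α * (x - s) ≤ 1 * (c + x) :=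
      mul_le_mul (by linarith) (by linarith [hsc.1]) (by linarith [hx.1]) (by norm_num)
    have h2 : (1 - η) * (c + x) ≤ 1 - η - x ^ 2 := by
      rw [← hcs]
      have : c ^ 2 - x ^ 2 - c ^ 2 * (c + x) = (c + x) * (c - x - c ^ 2) := by ring
      have h3 : 0 ≤ (c + x) * (c - x - c ^ 2) :=
        mul_nonneg (by linarith [hxc.1]) (by nlinarith)
      linarith
    have h4 : (1 - η) * (c + x) ≤ (1 - η) * Q η u x := h2.trans hl
    have := le_of_mul_le_mul_left h4 hc0
    linarith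

lemma G_le_one {η s r α β u : ℝ} (hη0 : 0 < η) (hη1 : η < 1) (hs : s ^ 2 ≤ 1 - η)
    (hr : r ^ 2 ≤ 1 - η) (hsr : s < r) (hα : 0 < α) (hβ : 0 < β) (hαβ : α + β = 1)
    (hu : (1 - η) * u ^ 2 < 1) (x : ℝ) :
    G η s r α β u x ≤ 1 := by
  unfold G
  rw [div_le_one (Q_cl_pos hη0 hη1 hs hr hsr hu x)]
  by_cases h1 : x ≤ s
  · rw [kk_zero_left hα h1]; exact (Q_cl_pos hη0 hη1 hs hr hsr hu x).le
  by_cases h2 : r ≤ x
  · rw [kk_zero_right hβ h2]; exact (Q_cl_pos hη0 hη1 hs hr hsr hu x).le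
  push Not at h1 h2
  rw [cl_eq ⟨h1.le, h2.le⟩]
  exact kk_le_Q hη0 hη1 hs hr hα hβ hαβ ⟨h1.le, h2.le⟩

/-- the mass function -/
def ff (η s r α β u : ℝ) : ℝ := ∫ x in s..r, G η s r α β u x
/-- minus its derivative -/
def fw (η s r α β u : ℝ) : ℝ := ∫ x in s..r, Gw η s r α β u x

lemma ff_pos {η s r α β u : ℝ} (hη0 : 0 < η) (hη1 : η < 1) (hs : s ^ 2 ≤ 1 - η)
    (hr : r ^ 2 ≤ 1 - η) (hsr : s < r) (hα : 0 < α) (hβ : 0 < β)
    (hu : (1 - η) * u ^ 2 < 1) : 0 < ff η s r α β u := by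
  unfold ff
  apply intervalIntegral.intervalIntegral_pos_of_pos_on
  · exact (continuous_G hη0 hη1 hs hr hsr hu).intervalIntegrable _ _
  · intro x hx
    unfold G kk
    apply div_pos _ (Q_cl_pos hη0 hη1 hs hr hsr hu x)
    apply lt_max_of_lt_right
    apply lt_min
    · exact mul_pos hα (by linarith [hx.1])
    · exact mul_pos hβ (by linarith [hx.2])
  · exact hsr

theorem main_ineq {η s r α β u v : ℝ} (hη0 : 0 < η) (hη1 : η < 1) (hs : s ^ 2 ≤ 1 - η)
    (hr : r ^ 2 ≤ 1 - η) (hsr : s < r) (hα : 0 < α) (hβ : 0 < β) (hαβ : α + β = 1)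
    (hu : (1 - η) * u ^ 2 < 1) (hv : (1 - η) * v ^ 2 < 1) :
    ff η s r α β u * ff η s r α β v ≤ ff η s r α β u * ff η s r α β u
      + max 0 (-(v - u) * fw η s r α β u) * (r - s) := by
  have hf := ff_pos hη0 hη1 hs hr hsr hα hβ hu
  set F := ff η s r α β u with hF
  set S := fw η s r α β u with hS
  set c := S / F with hc
  set m := α * s + β * r with hm
  have hms : m - s = β * (r - s) := by
    have : m - s = β * (r - s) + (α + β - 1) * s := by rw [hm]; ring
    rw [this, hαβ]; ring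
  have hrm : r - m = α * (r - s) := by
    have : r - m = α * (r - s) + (1 - (α + β)) * r := by rw [hm]; ring
    rw [this, hαβ]; ring
  have hsm : s < m := by
    have : 0 < β * (r - s) := mul_pos hβ (by linarith)
    linarith
  have hmr : m < r := by
    have : 0 < α * (r - s) := mul_pos hα (by linarith)
    linarith
  have hcG := continuous_G (α := α) (β := β) hη0 hη1 hs hr hsr hu
  have hcGw := continuous_Gw (α := α) (β := β) hη0 hη1 hs hr hsr hu
  have hcGv := continuous_G (α := α) (β := β) hη0 hη1 hs hr hsr hv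
  set w : ℝ → ℝ := fun x => Gw η s r α β u x - c * G η s r α β u x with hw
  have hwc : Continuous w := by rw [hw]; fun_prop
  have hwint : ∫ x in s..r, w x = 0 := by
    rw [hw]
    simp only
    rw [intervalIntegral.integral_sub (hcGw.intervalIntegrable _ _)
      ((hcG.const_mul c).intervalIntegrable _ _), intervalIntegral.integral_const_mul]
    change S - c * F = 0
    rw [hc]; field_simp; ring
  have hwsplit : (∫ x in s..m, w x) = -∫ x in m..r, w x := by
    have := intervalIntegral.integral_add_adjacent_intervals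
      (hwc.intervalIntegrable s m (μ := volume)) (hwc.intervalIntegrable m r (μ := volume))
    rw [hwint] at this; linarith
  have hQv : ∀ z ∈ Icc s r, 0 < Q η v z := fun z hz => by
    have := Q_cl_pos hη0 hη1 hs hr hsr hv z
    rwa [cl_eq hz] at this
  have hQu : ∀ z ∈ Icc s r, 0 < Q η u z := fun z hz => by
    have := Q_cl_pos hη0 hη1 hs hr hsr hu z
    rwa [cl_eq hz] at this
  have hL := left_piece (η := η) (s := s) (m := m) (α := α) (u := u) (v := v) (c := c) (M := 1)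
    (gu := G η s r α β u) (w := w) (g := G η s r α β v) hη0.le hs hsm hα
    (fun y hy => hQu y ⟨hy.1, hy.2.trans hmr.le⟩) hcG
    (fun y hy => by
      unfold G
      rw [kk_left hα hαβ hy.1 hy.2, cl_eq ⟨hy.1, hy.2.trans hmr.le⟩])
    hwc
    (fun y hy => by
      simp only [hw]
      unfold G Gw
      rw [kk_left hα hαβ hy.1 hy.2, cl_eq ⟨hy.1, hy.2.trans hmr.le⟩])
    hcGv (fun z => G_nonneg hη0 hη1 hs hr hsr hv z)
    (fun z => G_le_one hη0 hη1 hs hr hsr hα hβ hαβ hv z)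
    (fun z => by
      by_cases h1 : z ≤ s
      · left; unfold G; rw [kk_zero_left hα h1, zero_div]
      by_cases h2 : r ≤ z
      · left; unfold G; rw [kk_zero_right hβ h2, zero_div]
      push Not at h1 h2
      right
      refine ⟨h1, hQv z ⟨h1.le, h2.le⟩, ?_⟩
      unfold G
      rw [cl_eq ⟨h1.le, h2.le⟩, div_mul_cancel₀ _ (hQv z ⟨h1.le, h2.le⟩).ne']
      unfold kk
      exact max_le (mul_nonneg hα.le (by linarith)) (min_le_left _ _))
  have hR := right_piece (η := η) (r := r) (m := m) (β := β) (u := u) (v := v) (c := c) (M := 1)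
    (gu := G η s r α β u) (w := w) (g := G η s r α β v) hη0.le hr hmr hβ
    (fun y hy => hQu y ⟨hsm.le.trans hy.1, hy.2⟩) hcG
    (fun y hy => by
      unfold G
      rw [kk_right hβ hαβ hy.2 hy.1, cl_eq ⟨hsm.le.trans hy.1, hy.2⟩])
    hwc
    (fun y hy => by
      simp only [hw]
      unfold G Gw
      rw [kk_right hβ hαβ hy.2 hy.1, cl_eq ⟨hsm.le.trans hy.1, hy.2⟩])
    hcGv (fun z => G_nonneg hη0 hη1 hs hr hsr hv z)
    (fun z => G_le_one hη0 hη1 hs hr hsr hα hβ hαβ hv z)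
    (fun z => by
      by_cases h1 : z ≤ s
      · left; unfold G; rw [kk_zero_left hα h1, zero_div]
      by_cases h2 : r ≤ z
      · left; unfold G; rw [kk_zero_right hβ h2, zero_div]
      push Not at h1 h2
      right
      refine ⟨h2, hQv z ⟨h1.le, h2.le⟩, ?_⟩
      unfold G
      rw [cl_eq ⟨h1.le, h2.le⟩, div_mul_cancel₀ _ (hQv z ⟨h1.le, h2.le⟩).ne']
      unfold kk
      exact max_le (mul_nonneg hβ.le (by linarith)) (min_le_right _ _))
  rw [← hwsplit] at hR
  have hTm : m + (v - u) * (Q η u m / β) * ((∫ x in s..m, w x) / (r - m))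
      = m + (v - u) * (Q η u m / α) * ((∫ x in s..m, w x) / (m - s)) := by
    rw [hms, hrm]
    have : r - s ≠ 0 := by linarith
    field_simp
  rw [hTm] at hR
  set z1 := m + (v - u) * (Q η u m / α) * ((∫ x in s..m, w x) / (m - s)) with hz1
  have hsum : (∫ z in s..z1, G η s r α β v z) + (∫ z in z1..r, G η s r α β v z)
      = ff η s r α β v :=
    intervalIntegral.integral_add_adjacent_intervals
      (hcGv.intervalIntegrable _ _) (hcGv.intervalIntegrable _ _)
  have hsum' : (∫ z in s..m, G η s r α β u z) + (∫ z in m..r, G η s r α β u z)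
      = F :=
    intervalIntegral.integral_add_adjacent_intervals
      (hcG.intervalIntegrable _ _) (hcG.intervalIntegrable _ _)
  have hfin : ff η s r α β v ≤ F + max 0 (-(v - u) * c) * (r - s) := by
    rw [← hsum, ← hsum']
    have : max 0 (-(v - u) * c) * (r - s)
        = max 0 (-(v - u) * c) * 1 * (m - s) + max 0 (-(v - u) * c) * 1 * (r - m) := by ring
    rw [this]
    linarith
  have hmax : F * max 0 (-(v - u) * c) = max 0 (-(v - u) * S) := by
    rw [mul_max_of_nonneg _ _ hf.le, mul_zero]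
    congr 1
    rw [hc]; field_simp
  calc F * ff η s r α β v ≤ F * (F + max 0 (-(v - u) * c) * (r - s)) :=
        mul_le_mul_of_nonneg_left hfin hf.le
    _ = F * F + (F * max 0 (-(v - u) * c)) * (r - s) := by ring
    _ = _ := by rw [hmax]


theorem hasDerivAt_ff {η s r α β u : ℝ} (hη0 : 0 < η) (hη1 : η < 1) (hs : s ^ 2 ≤ 1 - η)
    (hr : r ^ 2 ≤ 1 - η) (hsr : s < r) (hu : (1 - η) * u ^ 2 < 1) :
    HasDerivAt (fun u => ff η s r α β u) (-fw η s r α β u) u := by
  have hU : IsOpen {u : ℝ | (1 - η) * u ^ 2 < 1} := isOpen_lt (by fun_prop) continuous_const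
  obtain ⟨K, hKc, hKu, hKU⟩ := exists_compact_subset hU hu
  have hcont : ContinuousOn (fun p : ℝ × ℝ => Gw η s r α β p.1 p.2) (K ×ˢ Icc s r) := by
    unfold Gw
    apply ContinuousOn.div
    · apply Continuous.continuousOn
      unfold kk Qt cl; fun_prop
    · apply Continuous.continuousOn
      unfold Q cl; fun_prop
    · rintro ⟨a, b⟩ ⟨ha, hb⟩
      exact (pow_pos (Q_cl_pos hη0 hη1 hs hr hsr (hKU ha) b) 2).ne'
  obtain ⟨C, hC⟩ := (hKc.prod isCompact_Icc).exists_bound_of_continuousOn hcont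
  have hmem : K ∈ nhds u := mem_interior_iff_mem_nhds.mp hKu
  have := (intervalIntegral.hasDerivAt_integral_of_dominated_loc_of_deriv_le
    (F := fun u x => G η s r α β u x) (F' := fun u x => - Gw η s r α β u x)
    (bound := fun _ => C) (μ := volume) (a := s) (b := r) (x₀ := u) hmem
    (by
      filter_upwards [hmem] with x hx
      exact (continuous_G hη0 hη1 hs hr hsr (hKU hx)).aestronglyMeasurable)
    ((continuous_G hη0 hη1 hs hr hsr hu).intervalIntegrable _ _)
    ((continuous_Gw hη0 hη1 hs hr hsr hu).neg.aestronglyMeasurable)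
    (by
      refine Filter.Eventually.of_forall fun x hx y hy => ?_
      rw [norm_neg]
      rw [uIoc_of_le hsr.le] at hx
      exact hC (y, x) ⟨hy, hx.1.le, hx.2⟩)
    intervalIntegrable_const
    (by
      refine Filter.Eventually.of_forall fun x hx y hy => ?_
      unfold G Gw
      have h1 := (hasDerivAt_const y (kk s r α β x)).div (hasDerivAt_Q_t η y (cl s r x))
        (Q_cl_pos hη0 hη1 hs hr hsr (hKU hy) x).ne'
      refine HasDerivAt.congr_deriv h1 ?_
      ring)).2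
  rw [intervalIntegral.integral_neg] at this
  exact this

/-- outcome probability -/
def qq (η x u : ℝ) : ℝ := (1 + (η * u - x) / √(1 + η * u ^ 2)) / 2

lemma R_sq {η u : ℝ} (h0 : 0 ≤ η) : √(1 + η * u ^ 2) ^ 2 = 1 + η * u ^ 2 :=
  Real.sq_sqrt (by positivity)

lemma R_pos {η u : ℝ} (h0 : 0 ≤ η) : 0 < √(1 + η * u ^ 2) :=
  Real.sqrt_pos.mpr (by positivity)

lemma R_ge_one {η u : ℝ} (h0 : 0 ≤ η) : 1 ≤ √(1 + η * u ^ 2) := by
  rw [Real.one_le_sqrt]
  have : 0 ≤ η * u ^ 2 := by positivity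
  linarith

lemma qq_mul {η x u : ℝ} (h0 : 0 ≤ η) :
    qq η x u * (1 - qq η x u) = Q η u x / (4 * √(1 + η * u ^ 2) ^ 2) := by
  have hR := R_pos (η := η) (u := u) h0
  have hR2 := R_sq (η := η) (u := u) h0
  unfold qq Q
  set R := √(1 + η * u ^ 2)
  rw [eq_div_iff (by positivity)]
  have e : (1 + (η * u - x) / R) / 2 * (1 - (1 + (η * u - x) / R) / 2) * (4 * R ^ 2)
      = R ^ 2 - (η * u - x) ^ 2 := by
    field_simp
    ring
  rw [e, hR2]

lemma qq_mem {η x u : ℝ} (h0 : 0 ≤ η) (hx : x ^ 2 ≤ 1 - η) : qq η x u ∈ Icc (0 : ℝ) 1 := by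
  have h1 : 0 ≤ qq η x u * (1 - qq η x u) := by
    rw [qq_mul h0]
    have := Q_nonneg (t := u) h0 hx
    positivity
  constructor
  · by_contra h
    push Not at h
    nlinarith
  · by_contra h
    push Not at h
    nlinarith

lemma qq_ne {η x u : ℝ} (h0 : 0 ≤ η) (hQ : Q η u x ≠ 0) : qq η x u ≠ 0 ∧ qq η x u ≠ 1 := by
  have h1 : qq η x u * (1 - qq η x u) ≠ 0 := by
    rw [qq_mul h0]
    have := R_pos (η := η) (u := u) h0
    exact div_ne_zero hQ (by positivity)
  constructor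
  · intro h; apply h1; rw [h]; ring
  · intro h; apply h1; rw [h]; ring

lemma hasDerivAt_qq_x {η x u : ℝ} :
    HasDerivAt (fun x => qq η x u) (-(1 / (2 * √(1 + η * u ^ 2)))) x := by
  unfold qq
  have h : HasDerivAt (fun x : ℝ => (1 + (η * u - x) / √(1 + η * u ^ 2)) / 2)
      ((0 + (0 - 1) / √(1 + η * u ^ 2)) / 2) x :=
    ((hasDerivAt_const x (1 : ℝ)).add
      (((hasDerivAt_const x (η * u)).sub (hasDerivAt_id x)).div_const _)).div_const _
  convert h using 1
  ring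

/-- first derivative in `x` of the entropy -/
def E1 (η u x : ℝ) : ℝ :=
  (log (1 - qq η x u) - log (qq η x u)) * (-(1 / (2 * √(1 + η * u ^ 2))))

lemma hasDerivAt_E_x {η x u : ℝ} (h0 : 0 ≤ η) (hQ : Q η u x ≠ 0) :
    HasDerivAt (fun x => binEntropy (qq η x u)) (E1 η u x) x := by
  obtain ⟨h1, h2⟩ := qq_ne h0 hQ
  exact HasDerivAt.comp x (hasDerivAt_binEntropy h1 h2) hasDerivAt_qq_x

lemma hasDerivAt_E1 {η x u : ℝ} (h0 : 0 ≤ η) (hQ : Q η u x ≠ 0) :
    HasDerivAt (fun x => E1 η u x) (-(1 / Q η u x)) x := by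
  obtain ⟨h1, h2⟩ := qq_ne h0 hQ
  have h3 : 1 - qq η x u ≠ 0 := fun h => h2 (by linarith)
  have hq := hasDerivAt_qq_x (η := η) (x := x) (u := u)
  have hR := R_pos (η := η) (u := u) h0
  have hm := qq_mul (η := η) (x := x) (u := u) h0
  unfold E1
  have h := (((hq.const_sub 1).log h3).sub (hq.log h1)).mul_const
    (-(1 / (2 * √(1 + η * u ^ 2))))
  refine HasDerivAt.congr_deriv h ?_
  set R := √(1 + η * u ^ 2)
  set q := qq η x u
  have hQe : Q η u x = q * (1 - q) * (4 * R ^ 2) := by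
    rw [hm]; field_simp
  rw [hQe]
  field_simp
  ring

/-- the Jensen gap (mutual information) -/
def JJ (η s r α β u : ℝ) : ℝ := binEntropy (qq η (α * s + β * r) u)
  - α * binEntropy (qq η s u) - β * binEntropy (qq η r u)

theorem ff_eq_JJ {η s r α β u : ℝ} (hη0 : 0 < η) (hη1 : η < 1) (hs : s ^ 2 ≤ 1 - η)
    (hr : r ^ 2 ≤ 1 - η) (hsr : s < r) (hα : 0 < α) (hβ : 0 < β) (hαβ : α + β = 1)
    (hu : (1 - η) * u ^ 2 < 1) : ff η s r α β u = JJ η s r α β u := by
  set m := α * s + β * r with hm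
  have hms : m - s = β * (r - s) := by
    have : m - s = β * (r - s) + (α + β - 1) * s := by rw [hm]; ring
    rw [this, hαβ]; ring
  have hrm : r - m = α * (r - s) := by
    have : r - m = α * (r - s) + (1 - (α + β)) * r := by rw [hm]; ring
    rw [this, hαβ]; ring
  have hsm : s < m := by
    have : 0 < β * (r - s) := mul_pos hβ (by linarith)
    linarith
  have hmr : m < r := by
    have : 0 < α * (r - s) := mul_pos hα (by linarith)
    linarith
  have hcG := continuous_G (α := α) (β := β) hη0 hη1 hs hr hsr hu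
  have hQu : ∀ z ∈ Icc s r, 0 < Q η u z := fun z hz => by
    have := Q_cl_pos hη0 hη1 hs hr hsr hu z
    rwa [cl_eq hz] at this
  have hL : ∫ x in s..m, G η s r α β u x
      = (-α * ((m - s) * E1 η u m - binEntropy (qq η m u)))
        - (-α * ((s - s) * E1 η u s - binEntropy (qq η s u))) := by
    apply intervalIntegral.integral_eq_sub_of_hasDerivAt
      (f := fun x => -α * ((x - s) * E1 η u x - binEntropy (qq η x u)))
    · intro x hx
      rw [uIcc_of_le hsm.le] at hx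
      have hxI : x ∈ Icc s r := ⟨hx.1, hx.2.trans hmr.le⟩
      have hQ := (hQu x hxI).ne'
      have h := ((((hasDerivAt_id x).sub_const s).mul (hasDerivAt_E1 hη0.le hQ)).sub
        (hasDerivAt_E_x hη0.le hQ)).const_mul (-α)
      refine HasDerivAt.congr_deriv h ?_
      unfold G
      rw [kk_left hα hαβ hx.1 hx.2, cl_eq hxI]
      simp only [id]
      ring
    · exact hcG.intervalIntegrable _ _
  have hR : ∫ x in m..r, G η s r α β u x
      = (-β * ((r - r) * E1 η u r + binEntropy (qq η r u)))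
        - (-β * ((r - m) * E1 η u m + binEntropy (qq η m u))) := by
    apply intervalIntegral.integral_eq_sub_of_hasDerivAt
      (f := fun x => -β * ((r - x) * E1 η u x + binEntropy (qq η x u)))
    · intro x hx
      rw [uIcc_of_le hmr.le] at hx
      have hxI : x ∈ Icc s r := ⟨hsm.le.trans hx.1, hx.2⟩
      have hQ := (hQu x hxI).ne'
      have h := ((((hasDerivAt_id x).const_sub r).mul (hasDerivAt_E1 hη0.le hQ)).add
        (hasDerivAt_E_x hη0.le hQ)).const_mul (-β)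
      refine HasDerivAt.congr_deriv h ?_
      unfold G
      rw [kk_right hβ hαβ hx.2 hx.1, cl_eq hxI]
      simp only [id]
      ring
    · exact hcG.intervalIntegrable _ _
  have hsum' : (∫ z in s..m, G η s r α β u z) + (∫ z in m..r, G η s r α β u z)
      = ff η s r α β u :=
    intervalIntegral.integral_add_adjacent_intervals
      (hcG.intervalIntegrable _ _) (hcG.intervalIntegrable _ _)
  rw [← hsum', hL, hR, hms, hrm]
  unfold JJ
  rw [← hm]
  have hα' : α = 1 - β := by linarith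
  rw [hα']
  ring


/-- derivative of `qq` in `u` -/
def qd (η x u : ℝ) : ℝ := η * (1 + x * u) / (2 * √(1 + η * u ^ 2) ^ 3)

lemma hasDerivAt_qq_u {η x u : ℝ} (h0 : 0 ≤ η) :
    HasDerivAt (fun u => qq η x u) (qd η x u) u := by
  have hR := R_pos (η := η) (u := u) h0
  have hR2 := R_sq (η := η) (u := u) h0
  have hpos : (1 + η * u ^ 2) ≠ 0 := by positivity
  have h1 : HasDerivAt (fun u : ℝ => 1 + η * u ^ 2) (η * (2 * u)) u := by
    have := ((hasDerivAt_pow 2 u).const_mul η).const_add 1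
    refine HasDerivAt.congr_deriv this ?_
    ring
  have h2 := h1.sqrt hpos
  have h3 : HasDerivAt (fun u : ℝ => η * u - x) η u := by
    have := ((hasDerivAt_id u).const_mul η).sub_const x
    refine HasDerivAt.congr_deriv this ?_
    ring
  have h4 := (((h3.div h2 hR.ne').const_add 1).div_const 2)
  unfold qq
  refine HasDerivAt.congr_deriv h4 ?_
  unfold qd
  set R := √(1 + η * u ^ 2)
  field_simp
  rw [hR2]
  ring

lemma continuous_qq {η x : ℝ} (h0 : 0 ≤ η) : Continuous fun u => qq η x u :=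
  continuous_iff_continuousAt.mpr fun _ => (hasDerivAt_qq_u h0).continuousAt

lemma continuous_qd {η x : ℝ} (h0 : 0 ≤ η) : Continuous fun u => qd η x u := by
  unfold qd
  apply Continuous.div (by fun_prop) (by fun_prop)
  intro u
  have := R_pos (η := η) (u := u) h0
  positivity

lemma qd_sq_le {η x u : ℝ} (h0 : 0 ≤ η) (h1 : η < 1) (hx : x ^ 2 ≤ 1 - η) :
    qd η x u ^ 2 ≤ qq η x u * (1 - qq η x u) := by
  rw [qq_mul h0]
  unfold qd
  have hR := R_pos (η := η) (u := u) h0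
  have hR1 := R_ge_one (η := η) (u := u) h0
  have hQ : η * (1 + x * u) ^ 2 ≤ Q η u x := by
    rw [Q_eq]
    have : 0 ≤ 1 - η - x ^ 2 := by linarith
    have : 0 ≤ (1 + η * u ^ 2) * (1 - η - x ^ 2) := by positivity
    linarith
  set R := √(1 + η * u ^ 2)
  rw [div_pow, div_le_div_iff₀ (by positivity) (by positivity)]
  have e1 : (η * (1 + x * u)) ^ 2 ≤ Q η u x := by
    calc (η * (1 + x * u)) ^ 2 = η * (η * (1 + x * u) ^ 2) := by ring
      _ ≤ 1 * (η * (1 + x * u) ^ 2) := by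
          apply mul_le_mul_of_nonneg_right h1.le (by positivity)
      _ ≤ Q η u x := by linarith
  have hQ0 : 0 ≤ Q η u x := le_trans (by positivity) e1
  have e2 : (4 * R ^ 2) ≤ (2 * R ^ 3) ^ 2 := by
    have : (2 * R ^ 3) ^ 2 = (4 * R ^ 2) * R ^ 4 := by ring
    rw [this]
    have : (1 : ℝ) ≤ R ^ 4 := one_le_pow₀ hR1
    nlinarith [sq_nonneg R]
  exact mul_le_mul e1 e2 (by positivity) hQ0

/-- derivative of the entropy in `u` -/
def gd (η x u : ℝ) : ℝ := (log (1 - qq η x u) - log (qq η x u)) * qd η x u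

def Psi (q : ℝ) : ℝ := √q * (√(1 - q) * log (1 - q)) - √(1 - q) * (√q * log q)

lemma continuous_sqrt_mul_log : Continuous fun y : ℝ => √y * log y := by
  have h : (fun y : ℝ => √y * log y) = fun y => 2 * (√y * log (√y)) := by
    funext y
    rcases le_or_gt 0 y with hy | hy
    · rw [Real.log_sqrt hy]; ring
    · rw [Real.sqrt_eq_zero'.mpr hy.le]; simp
  rw [h]
  exact continuous_const.mul (Real.continuous_mul_log.comp Real.continuous_sqrt)

lemma continuous_Psi : Continuous Psi := by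
  unfold Psi
  have h1 := continuous_sqrt_mul_log
  have h2 : Continuous fun q : ℝ => √(1 - q) * log (1 - q) :=
    h1.comp (continuous_const.sub continuous_id)
  exact (Real.continuous_sqrt.mul h2).sub
    ((Real.continuous_sqrt.comp (continuous_const.sub continuous_id)).mul h1)

lemma gd_le_Psi {η x u : ℝ} (h0 : 0 ≤ η) (h1 : η < 1) (hx : x ^ 2 ≤ 1 - η) :
    |gd η x u| ≤ |Psi (qq η x u)| := by
  obtain ⟨hq0, hq1⟩ := qq_mem (u := u) h0 hx
  have h := qd_sq_le (u := u) h0 h1 hx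
  set q := qq η x u with hq
  have e : Psi q = (log (1 - q) - log q) * (√q * √(1 - q)) := by unfold Psi; ring
  rw [e]
  unfold gd
  rw [abs_mul, abs_mul, ← hq]
  apply mul_le_mul_of_nonneg_left _ (abs_nonneg _)
  apply sq_le_sq.mp
  rw [mul_pow, Real.sq_sqrt hq0, Real.sq_sqrt (by linarith)]
  exact h

lemma Psi_eq_zero {q : ℝ} (h : q = 0 ∨ q = 1) : Psi q = 0 := by
  rcases h with rfl | rfl <;> simp [Psi]

lemma continuous_gd {η x : ℝ} (h0 : 0 ≤ η) (h1 : η < 1) (hx : x ^ 2 ≤ 1 - η) :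
    Continuous fun u => gd η x u := by
  rw [continuous_iff_continuousAt]
  intro u
  by_cases hq : qq η x u = 0 ∨ qq η x u = 1
  · have hz : gd η x u = 0 := by
      unfold gd
      rcases hq with h | h <;> simp [h]
    change Filter.Tendsto (fun u => gd η x u) (nhds u) (nhds (gd η x u))
    rw [hz]
    have hP : Filter.Tendsto (fun u => |Psi (qq η x u)|) (nhds u) (nhds 0) := by
      have := ((continuous_abs.comp continuous_Psi).comp (continuous_qq (x := x) h0)).tendsto u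
      simpa [Function.comp_def, Psi_eq_zero hq] using this
    exact squeeze_zero_norm (fun u => by
      rw [Real.norm_eq_abs]; exact gd_le_Psi h0 h1 hx) hP
  · push Not at hq
    have h3 : 1 - qq η x u ≠ 0 := fun h => hq.2 (by linarith)
    have hc := (continuous_qq (x := x) h0).continuousAt (x := u)
    unfold gd
    exact (((continuousAt_const.sub hc).log h3).sub (hc.log hq.1)).mul
      (continuous_qd h0).continuousAt

lemma hasDerivAt_E_u_reg {η x u : ℝ} (h0 : 0 ≤ η) (hQ : Q η u x ≠ 0) :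
    HasDerivAt (fun u => binEntropy (qq η x u)) (gd η x u) u := by
  obtain ⟨h1, h2⟩ := qq_ne h0 hQ
  exact HasDerivAt.comp u (hasDerivAt_binEntropy h1 h2) (hasDerivAt_qq_u h0)

lemma hasDerivAt_E_u {η x u : ℝ} (h0 : 0 < η) (h1 : η < 1) (hx : x ^ 2 ≤ 1 - η) :
    HasDerivAt (fun u => binEntropy (qq η x u)) (gd η x u) u := by
  by_cases hQ : Q η u x = 0
  · rw [Q_eq] at hQ
    have h2 : 0 ≤ 1 - η - x ^ 2 := by linarith
    have h3 : 0 ≤ (1 + η * u ^ 2) * (1 - η - x ^ 2) := by positivity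
    have h4 : 0 ≤ η * (1 + x * u) ^ 2 := by positivity
    have h5 : η * (1 + x * u) ^ 2 = 0 := by linarith
    have h6 : 1 + x * u = 0 := by
      rcases mul_eq_zero.mp h5 with h | h
      · exact absurd h h0.ne'
      · exact pow_eq_zero_iff (by norm_num) |>.mp h
    have hx0 : x ≠ 0 := by rintro rfl; simp at h6
    apply hasDerivAt_of_hasDerivAt_of_ne (g := fun u => gd η x u)
    · intro y hy
      apply hasDerivAt_E_u_reg h0.le
      intro hQy
      rw [Q_eq] at hQy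
      have h3 : 0 ≤ (1 + η * y ^ 2) * (1 - η - x ^ 2) := by positivity
      have h4 : 0 ≤ η * (1 + x * y) ^ 2 := by positivity
      have h5 : η * (1 + x * y) ^ 2 = 0 := by linarith
      have h7 : 1 + x * y = 0 := by
        rcases mul_eq_zero.mp h5 with h | h
        · exact absurd h h0.ne'
        · exact pow_eq_zero_iff (by norm_num) |>.mp h
      apply hy
      have : x * (y - u) = 0 := by linarith
      rcases mul_eq_zero.mp this with h | h
      · exact absurd h hx0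
      · linarith
    · exact (binEntropy_continuous.comp (continuous_qq h0.le)).continuousAt
    · exact (continuous_gd h0.le h1 hx).continuousAt
  · exact hasDerivAt_E_u_reg h0.le hQ

/-- derivative of the Jensen gap -/
def JJ' (η s r α β u : ℝ) : ℝ := gd η (α * s + β * r) u - α * gd η s u - β * gd η r u

lemma m_mem {s r α β : ℝ} (hsr : s < r) (hα : 0 ≤ α) (hβ : 0 ≤ β) (hαβ : α + β = 1) :
    α * s + β * r ∈ Icc s r := by
  have hα' : α = 1 - β := by linarith
  subst hα'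
  constructor <;> nlinarith

lemma hasDerivAt_JJ {η s r α β u : ℝ} (hη0 : 0 < η) (hη1 : η < 1) (hs : s ^ 2 ≤ 1 - η)
    (hr : r ^ 2 ≤ 1 - η) (hsr : s < r) (hα : 0 ≤ α) (hβ : 0 ≤ β) (hαβ : α + β = 1) :
    HasDerivAt (fun u => JJ η s r α β u) (JJ' η s r α β u) u := by
  have hm := sq_le_of_mem hs hr (m_mem hsr hα hβ hαβ)
  unfold JJ JJ'
  exact ((hasDerivAt_E_u hη0 hη1 hm).sub ((hasDerivAt_E_u hη0 hη1 hs).const_mul α)).sub
    ((hasDerivAt_E_u hη0 hη1 hr).const_mul β)

lemma continuous_JJ {η s r α β : ℝ} (hη0 : 0 < η) (hη1 : η < 1) (hs : s ^ 2 ≤ 1 - η)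
    (hr : r ^ 2 ≤ 1 - η) (hsr : s < r) (hα : 0 ≤ α) (hβ : 0 ≤ β) (hαβ : α + β = 1) :
    Continuous (fun u => JJ η s r α β u) :=
  continuous_iff_continuousAt.mpr fun _ =>
    (hasDerivAt_JJ hη0 hη1 hs hr hsr hα hβ hαβ).continuousAt

lemma continuous_JJ' {η s r α β : ℝ} (hη0 : 0 < η) (hη1 : η < 1) (hs : s ^ 2 ≤ 1 - η)
    (hr : r ^ 2 ≤ 1 - η) (hsr : s < r) (hα : 0 ≤ α) (hβ : 0 ≤ β) (hαβ : α + β = 1) :
    Continuous (fun u => JJ' η s r α β u) := by
  have hm := sq_le_of_mem hs hr (m_mem hsr hα hβ hαβ)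
  unfold JJ'
  exact ((continuous_gd hη0.le hη1 hm).sub ((continuous_gd hη0.le hη1 hs).const_mul α)).sub
    ((continuous_gd hη0.le hη1 hr).const_mul β)

lemma JJ'_eq {η s r α β u : ℝ} (hη0 : 0 < η) (hη1 : η < 1) (hs : s ^ 2 ≤ 1 - η)
    (hr : r ^ 2 ≤ 1 - η) (hsr : s < r) (hα : 0 < α) (hβ : 0 < β) (hαβ : α + β = 1)
    (hu : (1 - η) * u ^ 2 < 1) : JJ' η s r α β u = - fw η s r α β u := by
  have h1 := hasDerivAt_JJ (u := u) hη0 hη1 hs hr hsr hα.le hβ.le hαβ
  have h2 := hasDerivAt_ff (α := α) (β := β) hη0 hη1 hs hr hsr hu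
  have hU : IsOpen {u : ℝ | (1 - η) * u ^ 2 < 1} := isOpen_lt (by fun_prop) continuous_const
  have h3 : (fun u => ff η s r α β u) =ᶠ[nhds u] fun u => JJ η s r α β u := by
    filter_upwards [hU.mem_nhds hu] with y hy
    exact ff_eq_JJ hη0 hη1 hs hr hsr hα hβ hαβ hy
  exact h1.unique (h2.congr_of_eventuallyEq h3.symm)

theorem closed_ineq {η s r α β u v : ℝ} (hη0 : 0 < η) (hη1 : η < 1) (hs : s ^ 2 ≤ 1 - η)
    (hr : r ^ 2 ≤ 1 - η) (hsr : s < r) (hα : 0 < α) (hβ : 0 < β) (hαβ : α + β = 1)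
    (hu : (1 - η) * u ^ 2 ≤ 1) (hv : (1 - η) * v ^ 2 ≤ 1) :
    JJ η s r α β u * JJ η s r α β v ≤ JJ η s r α β u * JJ η s r α β u
      + max 0 ((v - u) * JJ' η s r α β u) * (r - s) := by
  have hJ := continuous_JJ hη0 hη1 hs hr hsr hα.le hβ.le hαβ
  have hJ' := continuous_JJ' hη0 hη1 hs hr hsr hα.le hβ.le hαβ
  have hin : ∀ w ∈ Ioo (0 : ℝ) 1, ∀ x, (1 - η) * x ^ 2 ≤ 1 → (1 - η) * (w * x) ^ 2 < 1 := by
    intro w hw x hx
    have h1 : w ^ 2 < 1 := by nlinarith [hw.1, hw.2]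
    have h2 : (1 - η) * (w * x) ^ 2 = w ^ 2 * ((1 - η) * x ^ 2) := by ring
    rw [h2]
    have h3 : 0 ≤ (1 - η) * x ^ 2 := mul_nonneg (by linarith) (sq_nonneg _)
    nlinarith [sq_nonneg w]
  set Φ : ℝ → ℝ := fun w => JJ η s r α β (w * u) * JJ η s r α β (w * u)
      + max 0 ((w * v - w * u) * JJ' η s r α β (w * u)) * (r - s)
      - JJ η s r α β (w * u) * JJ η s r α β (w * v) with hΦ
  have hΦc : Continuous Φ := by
    have h1 : Continuous fun w => JJ η s r α β (w * u) := hJ.comp (by fun_prop)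
    have h2 : Continuous fun w => JJ η s r α β (w * v) := hJ.comp (by fun_prop)
    have h3 : Continuous fun w => JJ' η s r α β (w * u) := hJ'.comp (by fun_prop)
    simp only [hΦ]
    fun_prop
  have h1 : 0 ≤ Φ 1 := by
    refine ge_of_tendsto ((hΦc.tendsto 1).mono_left (nhdsWithin_le_nhds (s := Iio 1))) ?_
    filter_upwards [Ioo_mem_nhdsLT (show (0 : ℝ) < 1 by norm_num)] with w hw
    have hu' := hin w hw u hu
    have hv' := hin w hw v hv
    have := main_ineq (u := w * u) (v := w * v) hη0 hη1 hs hr hsr hα hβ hαβ hu' hv'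
    rw [ff_eq_JJ hη0 hη1 hs hr hsr hα hβ hαβ hu', ff_eq_JJ hη0 hη1 hs hr hsr hα hβ hαβ hv'] at this
    simp only [hΦ]
    rw [JJ'_eq hη0 hη1 hs hr hsr hα hβ hαβ hu']
    have e : (w * v - w * u) * -fw η s r α β (w * u)
        = -(w * v - w * u) * fw η s r α β (w * u) := by ring
    rw [e]
    linarith
  simp only [hΦ, one_mul] at h1
  linarith

lemma qq_affine (η s r α β u : ℝ) (hαβ : α + β = 1) :
    qq η (α * s + β * r) u = α * qq η s u + β * qq η r u := by
  unfold qq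
  have hα' : α = 1 - β := by linarith
  subst hα'
  ring

lemma JJ_pos {η s r α β u : ℝ} (hη0 : 0 ≤ η) (hs : s ^ 2 ≤ 1 - η)
    (hr : r ^ 2 ≤ 1 - η) (hsr : s < r) (hα : 0 < α) (hβ : 0 < β) (hαβ : α + β = 1) :
    0 < JJ η s r α β u := by
  have h := strictConcave_binEntropy.2 (qq_mem (u := u) hη0 hs) (qq_mem (u := u) hη0 hr)
    (by
      intro h
      unfold qq at h
      have hR := R_pos (η := η) (u := u) hη0
      have h1 : (η * u - s) / √(1 + η * u ^ 2) = (η * u - r) / √(1 + η * u ^ 2) := by linarith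
      rw [div_left_inj' hR.ne'] at h1
      linarith) hα hβ hαβ
  simp only [smul_eq_mul] at h
  rw [← qq_affine η s r α β u hαβ] at h
  unfold JJ
  linarith

/-- the real-variable theorem -/
theorem real_main {η s r α β : ℝ} (hη0 : 0 ≤ η) (hη1 : η < 1) (hs : s ^ 2 ≤ 1 - η)
    (hr : r ^ 2 ≤ 1 - η) (hsr : s < r) (hα : 0 ≤ α) (hβ : 0 ≤ β) (hαβ : α + β = 1) :
    ∃ J' : ℝ → ℝ, (∀ u, HasDerivAt (fun u => JJ η s r α β u) (J' u) u) ∧
      ∀ u v, (1 - η) * u ^ 2 ≤ 1 → (1 - η) * v ^ 2 ≤ 1 → J' u * (v - u) ≤ 0 →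
        JJ η s r α β v ≤ JJ η s r α β u := by
  rcases hη0.eq_or_lt with h | hη0'
  · subst h
    have hc : ∀ u, JJ 0 s r α β u = JJ 0 s r α β 0 := by
      intro u; simp [JJ, qq]
    refine ⟨fun _ => 0, fun u => ?_, fun u v _ _ _ => by rw [hc u, hc v]⟩
    have : (fun u => JJ 0 s r α β u) = fun _ => JJ 0 s r α β 0 := funext hc
    rw [this]
    exact hasDerivAt_const _ _
  refine ⟨fun u => JJ' η s r α β u, fun u => hasDerivAt_JJ hη0' hη1 hs hr hsr hα hβ hαβ, ?_⟩
  intro u v hu hv h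
  rcases hα.eq_or_lt with h0 | hα'
  · subst h0
    have hb : β = 1 := by linarith
    subst hb
    simp [JJ]
  rcases hβ.eq_or_lt with h0 | hβ'
  · subst h0
    have hb : α = 1 := by linarith
    subst hb
    simp [JJ]
  have h1 := closed_ineq hη0' hη1 hs hr hsr hα' hβ' hαβ hu hv
  have h2 := JJ_pos (u := u) hη0 hs hr hsr hα' hβ' hαβ
  rw [max_eq_left (by linarith), zero_mul, add_zero] at h1
  exact le_of_mul_le_mul_left h1 h2


/-- Bloch form -/
def bl (t a b c : ℝ) : M2 :=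
  !![(((t + c) / 2 : ℝ) : ℂ), ⟨a / 2, -b / 2⟩; ⟨a / 2, b / 2⟩, (((t - c) / 2 : ℝ) : ℂ)]

lemma tr_bl (t a b c t' a' b' c' : ℝ) :
    tr (bl t a b c) (bl t' a' b' c') = (t * t' + (a * a' + b * b' + c * c')) / 2 := by
  simp [tr, bl, Matrix.trace, Fin.sum_univ_two]
  ring

lemma trace_bl_mul (t a b c t' a' b' c' : ℝ) :
    (bl t a b c * bl t' a' b' c').trace
      = (((t * t' + (a * a' + b * b' + c * c')) / 2 : ℝ) : ℂ) := by
  apply Complex.ext
  · simp [bl, Matrix.trace, Fin.sum_univ_two]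
    ring
  · simp [bl, Matrix.trace, Fin.sum_univ_two]
    ring

lemma trace_bl (t a b c : ℝ) : (bl t a b c).trace = (t : ℂ) := by
  apply Complex.ext
  · simp [bl, Matrix.trace, Fin.sum_univ_two]
    ring
  · simp [bl, Matrix.trace, Fin.sum_univ_two]

lemma density_bl {ρ : M2} (h : IsDensity ρ) :
    ∃ a b c : ℝ, ρ = bl 1 a b c ∧ a * a + b * b + c * c ≤ 1 := by
  obtain ⟨hp, ht⟩ := h
  have hH := hp.isHermitian
  have h00 := hH.apply 0 0
  have h11 := hH.apply 1 1
  have h01 := hH.apply 0 1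
  have i00 : (ρ 0 0).im = 0 := by
    have := congrArg Complex.im h00
    simp at this; linarith
  have i11 : (ρ 1 1).im = 0 := by
    have := congrArg Complex.im h11
    simp at this; linarith
  have r01 : (ρ 0 1).re = (ρ 1 0).re := by
    have := congrArg Complex.re h01
    simp at this; linarith
  have j01 : (ρ 0 1).im = -(ρ 1 0).im := by
    have := congrArg Complex.im h01
    simp at this; linarith
  have htr : (ρ 0 0).re + (ρ 1 1).re = 1 := by
    have := congrArg Complex.re ht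
    simpa [Matrix.trace, Fin.sum_univ_two] using this
  have hdet := hp.det_nonneg
  rw [Matrix.det_fin_two] at hdet
  have hdr := (Complex.le_def.mp hdet).1
  simp only [Complex.zero_re, Complex.sub_re, Complex.mul_re] at hdr
  refine ⟨2 * (ρ 1 0).re, 2 * (ρ 1 0).im, 2 * (ρ 0 0).re - 1, ?_, ?_⟩
  · ext i j
    fin_cases i <;> fin_cases j <;> apply Complex.ext <;> simp [bl, i00, i11, r01, j01]
    all_goals linarith
  · rw [i00, i11, r01, j01] at hdr
    have : (ρ 1 1).re = 1 - (ρ 0 0).re := by linarith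
    rw [this] at hdr
    nlinarith

lemma HH_bl (a1 a2 a3 b1 b2 b3 m l : ℝ) (hm : mu (bl 1 a1 a2 a3) (bl 1 b1 b2 b3) = m) :
    HH (bl 1 a1 a2 a3) (bl 1 b1 b2 b3) l
      = bl l (l * (m * a1 + (1 - m) * b1) - (a1 - b1)) (l * (m * a2 + (1 - m) * b2) - (a2 - b2))
          (l * (m * a3 + (1 - m) * b3) - (a3 - b3)) := by
  unfold HH omega
  rw [hm]
  ext i j
  fin_cases i <;> fin_cases j <;> apply Complex.ext <;> simp [bl] <;> ring

lemma eigen_exists (l n1 n2 n3 : ℝ) (hN : 0 < n1 * n1 + n2 * n2 + n3 * n3) :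
    ∃ P, IsEigenMeasurement (bl l n1 n2 n3) P := by
  set R := √(n1 * n1 + n2 * n2 + n3 * n3) with hR
  have hRp : 0 < R := Real.sqrt_pos.mpr hN
  have hR2 : R * R = n1 * n1 + n2 * n2 + n3 * n3 := Real.mul_self_sqrt hN.le
  have hnn : (n1 / R) * (n1 / R) + (n2 / R) * (n2 / R) + (n3 / R) * (n3 / R) = 1 := by
    field_simp
    nlinarith
  set m1 := n1 / R with hm1
  set m2 := n2 / R with hm2
  set m3 := n3 / R with hm3
  have e1 : n1 = R * m1 := by rw [hm1]; field_simp
  have e2 : n2 = R * m2 := by rw [hm2]; field_simp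
  have e3 : n3 = R * m3 := by rw [hm3]; field_simp
  refine ⟨![bl 1 m1 m2 m3, bl 1 (-m1) (-m2) (-m3)], ?_, ?_, ?_, ?_, ?_⟩
  · intro y
    fin_cases y <;>
    · simp only [Fin.zero_eta, Fin.mk_one, Matrix.cons_val_zero, Matrix.cons_val_one]
      apply Matrix.IsHermitian.ext
      intro i j
      fin_cases i <;> fin_cases j <;> apply Complex.ext <;> simp [bl]
      all_goals ring
  · intro y
    fin_cases y <;>
    · simp only [Fin.zero_eta, Fin.mk_one, Matrix.cons_val_zero, Matrix.cons_val_one]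
      ext i j
      fin_cases i <;> fin_cases j <;> apply Complex.ext <;>
        simp [bl, Matrix.mul_apply, Fin.sum_univ_two] <;> nlinarith
  · intro y
    fin_cases y <;>
    · simp only [Fin.zero_eta, Fin.mk_one, Matrix.cons_val_zero, Matrix.cons_val_one]
      rw [trace_bl]; simp
  · simp only [Matrix.cons_val_zero, Matrix.cons_val_one]
    ext i j
    fin_cases i <;> fin_cases j <;> apply Complex.ext <;> simp [bl] <;> ring
  · intro y
    fin_cases y
    · refine ⟨(((l + R) / 2 : ℝ) : ℂ), ?_⟩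
      simp only [Fin.zero_eta, Matrix.cons_val_zero]
      rw [e1, e2, e3]
      ext i j
      fin_cases i <;> fin_cases j <;> apply Complex.ext <;>
        simp [bl, Matrix.mul_apply, Fin.sum_univ_two] <;> nlinarith
    · refine ⟨(((l - R) / 2 : ℝ) : ℂ), ?_⟩
      simp only [Fin.mk_one, Matrix.cons_val_one]
      rw [e1, e2, e3]
      ext i j
      fin_cases i <;> fin_cases j <;> apply Complex.ext <;>
        simp [bl, Matrix.mul_apply, Fin.sum_univ_two] <;> nlinarith

lemma q_formula {l n1 n2 n3 : ℝ} (hN : 0 < n1 * n1 + n2 * n2 + n3 * n3) {P : Fin 2 → M2}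
    (hP : IsEigenMeasurement (bl l n1 n2 n3) P) :
    (∀ x1 x2 x3 : ℝ, tr (bl 1 x1 x2 x3) (P 1) = 1 - tr (bl 1 x1 x2 x3) (P 0)) ∧
    ((∀ x1 x2 x3 : ℝ, tr (bl 1 x1 x2 x3) (P 0)
      = (1 + (x1 * n1 + x2 * n2 + x3 * n3) / √(n1 * n1 + n2 * n2 + n3 * n3)) / 2) ∨
    (∀ x1 x2 x3 : ℝ, tr (bl 1 x1 x2 x3) (P 0)
      = 1 - (1 + (x1 * n1 + x2 * n2 + x3 * n3) / √(n1 * n1 + n2 * n2 + n3 * n3)) / 2)) := by
  set R := √(n1 * n1 + n2 * n2 + n3 * n3) with hR
  have hRp : 0 < R := Real.sqrt_pos.mpr hN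
  have hR2 : R * R = n1 * n1 + n2 * n2 + n3 * n3 := Real.mul_self_sqrt hN.le
  set A := bl l n1 n2 n3 with hA
  obtain ⟨c0, h0⟩ := hP.eigen 0
  obtain ⟨c1, h1⟩ := hP.eigen 1
  have hAd : A = c0 • P 0 + c1 • P 1 := by
    rw [← h0, ← h1, ← mul_add, hP.sum_one, mul_one]
  have hA2 : A * A = (c0 * c0) • P 0 + (c1 * c1) • P 1 := by
    calc A * A = A * (c0 • P 0 + c1 • P 1) := by rw [← hAd]
      _ = c0 • (A * P 0) + c1 • (A * P 1) := by
          rw [mul_add, Matrix.mul_smul, Matrix.mul_smul]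
      _ = _ := by rw [h0, h1, smul_smul, smul_smul]
  have t1 : (l : ℂ) = c0 + c1 := by
    have := congrArg Matrix.trace hAd
    rw [Matrix.trace_add, Matrix.trace_smul, Matrix.trace_smul, hP.trace_one, hP.trace_one,
      hA, trace_bl] at this
    simpa using this
  have t2 : (((l * l + (n1 * n1 + n2 * n2 + n3 * n3)) / 2 : ℝ) : ℂ) = c0 * c0 + c1 * c1 := by
    have := congrArg Matrix.trace hA2
    rw [Matrix.trace_add, Matrix.trace_smul, Matrix.trace_smul, hP.trace_one, hP.trace_one,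
      hA, trace_bl_mul] at this
    simpa using this
  have hδ : (c0 - c1) * (c0 - c1) = ((R * R : ℝ) : ℂ) := by
    rw [hR2]
    have e : ((n1 * n1 + n2 * n2 + n3 * n3 : ℝ) : ℂ)
        = 2 * (((l * l + (n1 * n1 + n2 * n2 + n3 * n3)) / 2 : ℝ) : ℂ) - (l : ℂ) * (l : ℂ) := by
      push_cast; ring
    rw [e, t2, t1]; ring
  have hδ' : c0 - c1 = (R : ℂ) ∨ c0 - c1 = ((-R : ℝ) : ℂ) := by
    have : ((c0 - c1) - (R : ℂ)) * ((c0 - c1) + (R : ℂ)) = 0 := by
      push_cast at hδ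
      linear_combination hδ
    rcases mul_eq_zero.mp this with h | h
    · left; linear_combination h
    · right; push_cast; linear_combination h
  have hsum : ∀ x1 x2 x3 : ℝ,
      (bl 1 x1 x2 x3 * P 0).trace + (bl 1 x1 x2 x3 * P 1).trace = 1 := by
    intro x1 x2 x3
    rw [← Matrix.trace_add, ← mul_add, hP.sum_one, mul_one, trace_bl]; simp
  have hy : ∀ x1 x2 x3 : ℝ, (bl 1 x1 x2 x3 * P 0).trace * (c0 - c1)
      = (((x1 * n1 + x2 * n2 + x3 * n3 : ℝ) : ℂ) + (c0 - c1)) / 2 := by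
    intro x1 x2 x3
    have e1 : (bl 1 x1 x2 x3 * A).trace
        = c0 * (bl 1 x1 x2 x3 * P 0).trace + c1 * (bl 1 x1 x2 x3 * P 1).trace := by
      conv_lhs => rw [hAd]
      rw [mul_add, Matrix.mul_smul, Matrix.mul_smul, Matrix.trace_add, Matrix.trace_smul,
        Matrix.trace_smul, smul_eq_mul, smul_eq_mul]
    rw [hA, trace_bl_mul] at e1
    have e2 := hsum x1 x2 x3
    have e3 : (((1 * l + (x1 * n1 + x2 * n2 + x3 * n3)) / 2 : ℝ) : ℂ)
      = ((l : ℂ) + ((x1 * n1 + x2 * n2 + x3 * n3 : ℝ) : ℂ)) / 2 := by push_cast; ring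
    rw [e3, t1] at e1
    linear_combination -e1 - c1 * e2
  have hsum' : ∀ x1 x2 x3 : ℝ, tr (bl 1 x1 x2 x3) (P 1) = 1 - tr (bl 1 x1 x2 x3) (P 0) := by
    intro x1 x2 x3
    have := congrArg Complex.re (hsum x1 x2 x3)
    simp only [Complex.add_re, Complex.one_re] at this
    unfold tr
    linarith
  refine ⟨hsum', ?_⟩
  rcases hδ' with h | h
  · left
    intro x1 x2 x3
    have e := hy x1 x2 x3
    rw [h] at e
    have := congrArg Complex.re e
    simp only [Complex.mul_re, Complex.ofReal_re, Complex.ofReal_im, mul_zero, sub_zero] at this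
    have e4 : ((((x1 * n1 + x2 * n2 + x3 * n3 : ℝ) : ℂ) + (R : ℂ)) / 2).re
        = ((x1 * n1 + x2 * n2 + x3 * n3) + R) / 2 := by
      have : (((x1 * n1 + x2 * n2 + x3 * n3 : ℝ) : ℂ) + (R : ℂ)) / 2
        = ((((x1 * n1 + x2 * n2 + x3 * n3) + R) / 2 : ℝ) : ℂ) := by push_cast; ring
      rw [this, Complex.ofReal_re]
    rw [e4] at this
    unfold tr
    field_simp
    linarith
  · right
    intro x1 x2 x3
    have e := hy x1 x2 x3
    rw [h] at e
    have := congrArg Complex.re e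
    simp only [Complex.mul_re, Complex.ofReal_re, Complex.ofReal_im, mul_zero, sub_zero] at this
    have e4 : ((((x1 * n1 + x2 * n2 + x3 * n3 : ℝ) : ℂ) + ((-R : ℝ) : ℂ)) / 2).re
        = ((x1 * n1 + x2 * n2 + x3 * n3) - R) / 2 := by
      have : (((x1 * n1 + x2 * n2 + x3 * n3 : ℝ) : ℂ) + ((-R : ℝ) : ℂ)) / 2
        = ((((x1 * n1 + x2 * n2 + x3 * n3) - R) / 2 : ℝ) : ℂ) := by push_cast; ring
      rw [this, Complex.ofReal_re]
    rw [e4] at this
    unfold tr
    field_simp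
    linarith

lemma term_eq {p q Y : ℝ} (hp : 0 ≤ p) (hq : 0 ≤ q) (hY : p * q ≤ Y) :
    p * q * log (p * q / (p * Y)) = p * q * (log q - log Y) := by
  rcases hp.eq_or_lt with h | hp'
  · rw [← h]; ring
  rcases hq.eq_or_lt with h | hq'
  · rw [← h]; ring
  have hY' : 0 < Y := lt_of_lt_of_le (mul_pos hp' hq') hY
  rw [mul_div_mul_left _ _ hp'.ne', Real.log_div hq'.ne' hY'.ne']

lemma mutualInfo_eq {J : Fin 2 → Fin 2 → ℝ} {p0 p1 q0 q1 : ℝ} (hp0 : 0 ≤ p0) (hp1 : 0 ≤ p1)
    (hp : p0 + p1 = 1) (hq0 : q0 ∈ Icc (0 : ℝ) 1) (hq1 : q1 ∈ Icc (0 : ℝ) 1)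
    (h00 : J 0 0 = p0 * q0) (h01 : J 0 1 = p0 * (1 - q0))
    (h10 : J 1 0 = p1 * q1) (h11 : J 1 1 = p1 * (1 - q1)) :
    mutualInfo J = binEntropy (p1 * q1 + p0 * q0) - p1 * binEntropy q1 - p0 * binEntropy q0 := by
  unfold mutualInfo
  simp only [Fin.sum_univ_two]
  rw [h00, h01, h10, h11]
  have e0 : p0 * q0 + p0 * (1 - q0) = p0 := by ring
  have e1 : p1 * q1 + p1 * (1 - q1) = p1 := by ring
  have e2 : p0 * (1 - q0) + p1 * (1 - q1) = 1 - (p0 * q0 + p1 * q1) := by
    have : p0 = 1 - p1 := by linarith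
    rw [this]; ring
  rw [e0, e1]
  have a1 : 0 ≤ p0 * q0 := mul_nonneg hp0 hq0.1
  have a2 : 0 ≤ p1 * q1 := mul_nonneg hp1 hq1.1
  have a3 : 0 ≤ p0 * (1 - q0) := mul_nonneg hp0 (by linarith [hq0.2])
  have a4 : 0 ≤ p1 * (1 - q1) := mul_nonneg hp1 (by linarith [hq1.2])
  rw [term_eq (Y := p0 * q0 + p1 * q1) hp0 hq0.1 (by linarith),
    term_eq (q := 1 - q0) (Y := p0 * (1 - q0) + p1 * (1 - q1)) hp0 (by linarith [hq0.2])
      (by linarith),
    term_eq (Y := p0 * q0 + p1 * q1) hp1 hq1.1 (by linarith),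
    term_eq (q := 1 - q1) (Y := p0 * (1 - q0) + p1 * (1 - q1)) hp1 (by linarith [hq1.2])
      (by linarith), e2]
  simp only [binEntropy_eq_negMulLog_add_negMulLog_one_sub, negMulLog]
  have e3 : p1 * q1 + p0 * q0 = p0 * q0 + p1 * q1 := by ring
  rw [e3]
  have : p0 = 1 - p1 := by linarith
  rw [this]
  ring



theorem info_eq {a1 a2 a3 b1 b2 b3 : ℝ} (ha : a1 * a1 + a2 * a2 + a3 * a3 ≤ 1)
    (hb : b1 * b1 + b2 * b2 + b3 * b3 ≤ 1) (hne : bl 1 a1 a2 a3 ≠ bl 1 b1 b2 b3)
    {p : Fin 2 → ℝ} (hp : ∀ x, 0 ≤ p x) (hp1 : p 0 + p 1 = 1) :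
    ∃ η s r d : ℝ, 0 ≤ η ∧ η < 1 ∧ s ^ 2 ≤ 1 - η ∧ r ^ 2 ≤ 1 - η ∧ s < r ∧ 0 < d ∧
      0 < lamStar (bl 1 a1 a2 a3) (bl 1 b1 b2 b3) ∧
      (1 - η) * lamStar (bl 1 a1 a2 a3) (bl 1 b1 b2 b3) ^ 2 = d ^ 2 ∧
      (∀ l, ∃ P, IsEigenMeasurement (HH (bl 1 a1 a2 a3) (bl 1 b1 b2 b3) l) P) ∧
      ∀ l P, IsEigenMeasurement (HH (bl 1 a1 a2 a3) (bl 1 b1 b2 b3) l) P →
        mutualInfo (joint (bl 1 a1 a2 a3) (bl 1 b1 b2 b3) p P)
          = JJ η s r (p 1) (p 0) (l / d) := by
  obtain ⟨A, hA⟩ : ∃ A, A = a1 * a1 + a2 * a2 + a3 * a3 := ⟨_, rfl⟩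
  obtain ⟨B, hB⟩ : ∃ B, B = b1 * b1 + b2 * b2 + b3 * b3 := ⟨_, rfl⟩
  obtain ⟨C, hC⟩ : ∃ C, C = a1 * b1 + a2 * b2 + a3 * b3 := ⟨_, rfl⟩
  obtain ⟨D2, hD2⟩ : ∃ D2, D2 = (a1 - b1) * (a1 - b1) + (a2 - b2) * (a2 - b2)
    + (a3 - b3) * (a3 - b3) := ⟨_, rfl⟩
  rw [← hA] at ha
  rw [← hB] at hb
  have hD2' : D2 = A - 2 * C + B := by rw [hD2, hA, hB, hC]; ring
  have hDpos : 0 < D2 := by
    by_contra h
    push Not at h
    apply hne
    have h1 : (a1 - b1) * (a1 - b1) = 0 := by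
      nlinarith [mul_self_nonneg (a1 - b1), mul_self_nonneg (a2 - b2), mul_self_nonneg (a3 - b3)]
    have h2 : (a2 - b2) * (a2 - b2) = 0 := by
      nlinarith [mul_self_nonneg (a1 - b1), mul_self_nonneg (a2 - b2), mul_self_nonneg (a3 - b3)]
    have h3 : (a3 - b3) * (a3 - b3) = 0 := by
      nlinarith [mul_self_nonneg (a1 - b1), mul_self_nonneg (a2 - b2), mul_self_nonneg (a3 - b3)]
    have h1' : a1 = b1 := by have := mul_self_eq_zero.mp h1; linarith
    have h2' : a2 = b2 := by have := mul_self_eq_zero.mp h2; linarith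
    have h3' : a3 = b3 := by have := mul_self_eq_zero.mp h3; linarith
    rw [h1', h2', h3']
  have hsub : bl 1 a1 a2 a3 - bl 1 b1 b2 b3 = bl 0 (a1 - b1) (a2 - b2) (a3 - b3) := by
    ext i j
    fin_cases i <;> fin_cases j <;> apply Complex.ext <;> simp [bl] <;> ring
  obtain ⟨m, hm⟩ : ∃ m, m = (B - C) / D2 := ⟨_, rfl⟩
  have hmD : m * D2 = B - C := by rw [hm]; field_simp
  have hmu : mu (bl 1 a1 a2 a3) (bl 1 b1 b2 b3) = m := by
    unfold mu
    rw [hsub, tr_bl, tr_bl, tr_bl]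
    have e1 : (1 * 1 + (b1 * b1 + b2 * b2 + b3 * b3)) / 2
        - (1 * 1 + (a1 * b1 + a2 * b2 + a3 * b3)) / 2 = (B - C) / 2 := by
      rw [hB, hC]; ring
    have e2 : (0 * 0 + ((a1 - b1) * (a1 - b1) + (a2 - b2) * (a2 - b2)
        + (a3 - b3) * (a3 - b3))) / 2 = D2 / 2 := by
      rw [hD2]; ring
    rw [e1, e2, hm]
    field_simp
  obtain ⟨w1, hw1⟩ : ∃ w1, w1 = m * a1 + (1 - m) * b1 := ⟨_, rfl⟩
  obtain ⟨w2, hw2⟩ : ∃ w2, w2 = m * a2 + (1 - m) * b2 := ⟨_, rfl⟩
  obtain ⟨w3, hw3⟩ : ∃ w3, w3 = m * a3 + (1 - m) * b3 := ⟨_, rfl⟩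
  obtain ⟨η, hη⟩ : ∃ η, η = w1 * w1 + w2 * w2 + w3 * w3 := ⟨_, rfl⟩
  have hη1 : η = B - m ^ 2 * D2 := by
    have e : η = m ^ 2 * A + 2 * m * (1 - m) * C + (1 - m) ^ 2 * B := by
      rw [hη, hw1, hw2, hw3, hA, hB, hC]; ring
    rw [e, hD2']
    rw [hD2'] at hmD
    linear_combination (2 * m) * hmD
  have hη2 : η = A - (1 - m) ^ 2 * D2 := by
    rw [hη1]
    linear_combination hD2' - 2 * hmD
  have hη0 : 0 ≤ η := by
    rw [hη]
    exact add_nonneg (add_nonneg (mul_self_nonneg _) (mul_self_nonneg _)) (mul_self_nonneg _)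
  obtain ⟨d, hd⟩ : ∃ d, d = √D2 := ⟨_, rfl⟩
  have hdpos : 0 < d := hd ▸ Real.sqrt_pos.mpr hDpos
  have hd2 : d * d = D2 := hd ▸ Real.mul_self_sqrt hDpos.le
  obtain ⟨s, hs⟩ : ∃ s, s = -m * d := ⟨_, rfl⟩
  obtain ⟨r, hr⟩ : ∃ r, r = (1 - m) * d := ⟨_, rfl⟩
  have hs2 : s ^ 2 = B - η := by
    rw [hη1, hs]; linear_combination (m ^ 2) * hd2
  have hr2 : r ^ 2 = A - η := by
    rw [hη2, hr]; linear_combination ((1 - m) ^ 2) * hd2
  have hs2' : s ^ 2 ≤ 1 - η := by rw [hs2]; linarith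
  have hr2' : r ^ 2 ≤ 1 - η := by rw [hr2]; linarith
  have hrs : r - s = d := by rw [hr, hs]; ring
  have hsr : s < r := by linarith
  have hηlt : η < 1 := by
    by_contra h
    push Not at h
    have h1 : s = 0 := by
      have : s ^ 2 ≤ 0 := by linarith
      exact pow_eq_zero_iff (two_ne_zero) |>.mp (le_antisymm this (sq_nonneg _))
    have h2 : r = 0 := by
      have : r ^ 2 ≤ 0 := by linarith
      exact pow_eq_zero_iff (two_ne_zero) |>.mp (le_antisymm this (sq_nonneg _))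
    linarith
  have hrad : tr (bl 1 a1 a2 a3 - bl 1 b1 b2 b3) (bl 1 a1 a2 a3 - bl 1 b1 b2 b3)
      - tr (bl 1 a1 a2 a3) (bl 1 a1 a2 a3) * tr (bl 1 b1 b2 b3) (bl 1 b1 b2 b3)
      + tr (bl 1 a1 a2 a3) (bl 1 b1 b2 b3) ^ 2 = D2 * (1 - η) / 4 := by
    rw [hsub, tr_bl, tr_bl, tr_bl, tr_bl]
    have e1 : (1 * 1 + (a1 * a1 + a2 * a2 + a3 * a3)) / 2 = (1 + A) / 2 := by rw [hA]; ring
    have e2 : (1 * 1 + (b1 * b1 + b2 * b2 + b3 * b3)) / 2 = (1 + B) / 2 := by rw [hB]; ring
    have e3 : (1 * 1 + (a1 * b1 + a2 * b2 + a3 * b3)) / 2 = (1 + C) / 2 := by rw [hC]; ring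
    have e4 : (0 * 0 + ((a1 - b1) * (a1 - b1) + (a2 - b2) * (a2 - b2)
        + (a3 - b3) * (a3 - b3))) / 2 = D2 / 2 := by
      rw [hD2]; ring
    rw [e1, e2, e3, e4]
    have e5 : D2 * η = B * D2 - (B - C) ^ 2 := by
      rw [hη1, ← hmD]; ring
    have e6 : D2 * (1 - η) / 4 = (D2 - D2 * η) / 4 := by ring
    rw [e6, e5, hD2']
    ring
  have htrD : tr (bl 1 a1 a2 a3 - bl 1 b1 b2 b3) (bl 1 a1 a2 a3 - bl 1 b1 b2 b3) = D2 / 2 := by
    rw [hsub, tr_bl, hD2]; ring
  have hradpos : 0 < D2 * (1 - η) / 4 := by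
    have : 0 < 1 - η := by linarith
    positivity
  have hlam : lamStar (bl 1 a1 a2 a3) (bl 1 b1 b2 b3) = (D2 / 2) / √(D2 * (1 - η) / 4) := by
    unfold lamStar
    rw [hrad, htrD]
  have hwab : w1 * (a1 - b1) + w2 * (a2 - b2) + w3 * (a3 - b3) = 0 := by
    have e : w1 * (a1 - b1) + w2 * (a2 - b2) + w3 * (a3 - b3) = m * D2 - (B - C) := by
      rw [hw1, hw2, hw3, hD2, hB, hC]; ring
    rw [e, hmD]; ring
  have hN : ∀ l : ℝ, (l * w1 - (a1 - b1)) * (l * w1 - (a1 - b1))
      + (l * w2 - (a2 - b2)) * (l * w2 - (a2 - b2))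
      + (l * w3 - (a3 - b3)) * (l * w3 - (a3 - b3)) = l ^ 2 * η + D2 := by
    intro l
    rw [hη, hD2]
    linear_combination (-2 * l) * hwab
  have hNpos : ∀ l : ℝ, 0 < (l * w1 - (a1 - b1)) * (l * w1 - (a1 - b1))
      + (l * w2 - (a2 - b2)) * (l * w2 - (a2 - b2))
      + (l * w3 - (a3 - b3)) * (l * w3 - (a3 - b3)) := by
    intro l
    rw [hN l]
    have : 0 ≤ l ^ 2 * η := by positivity
    linarith
  refine ⟨η, s, r, d, hη0, hηlt, hs2', hr2', hsr, hdpos, ?_, ?_, ?_, ?_⟩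
  · rw [hlam]
    exact div_pos (by linarith) (Real.sqrt_pos.mpr hradpos)
  · rw [hlam, div_pow, Real.sq_sqrt hradpos.le, sq d, hd2]
    have : (1 - η) ≠ 0 := by linarith
    field_simp
    ring
  · intro l
    rw [HH_bl _ _ _ _ _ _ m l hmu, ← hw1, ← hw2, ← hw3]
    exact eigen_exists _ _ _ _ (hNpos l)
  · intro l P hP
    rw [HH_bl _ _ _ _ _ _ m l hmu, ← hw1, ← hw2, ← hw3] at hP
    obtain ⟨hq1, hq0⟩ := q_formula (hNpos l) hP
    rw [hN l] at hq0
    have hsqrt : √(l ^ 2 * η + D2) = d * √(1 + η * (l / d) ^ 2) := by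
      rw [hd, ← Real.sqrt_mul hDpos.le]
      congr 1
      rw [← hd, div_pow, sq d, hd2]
      field_simp
      ring
    rw [hsqrt] at hq0
    have hR := R_pos (η := η) (u := l / d) hη0
    have hbn : b1 * (l * w1 - (a1 - b1)) + b2 * (l * w2 - (a2 - b2)) + b3 * (l * w3 - (a3 - b3))
        = d * (η * l / d * d / d - s) := by
      have e : b1 * (l * w1 - (a1 - b1)) + b2 * (l * w2 - (a2 - b2))
          + b3 * (l * w3 - (a3 - b3)) = l * η + m * D2 := by
        have e1 : b1 * w1 + b2 * w2 + b3 * w3 = η - m * (w1 * (a1 - b1) + w2 * (a2 - b2)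
            + w3 * (a3 - b3)) := by
          rw [hη, hw1, hw2, hw3]; ring
        rw [hwab] at e1
        rw [hmD, hB, hC]
        linear_combination l * e1
      rw [e, hs, ← hd2]
      field_simp
      ring
    have han : a1 * (l * w1 - (a1 - b1)) + a2 * (l * w2 - (a2 - b2)) + a3 * (l * w3 - (a3 - b3))
        = d * (η * l / d * d / d - r) := by
      have e : a1 * (l * w1 - (a1 - b1)) + a2 * (l * w2 - (a2 - b2))
          + a3 * (l * w3 - (a3 - b3)) = l * η - (1 - m) * D2 := by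
        have e1 : a1 * w1 + a2 * w2 + a3 * w3 = η + (1 - m) * (w1 * (a1 - b1) + w2 * (a2 - b2)
            + w3 * (a3 - b3)) := by
          rw [hη, hw1, hw2, hw3]; ring
        rw [hwab] at e1
        have e2 : (1 - m) * D2 = A - C := by
          linear_combination hD2' - hmD
        rw [e2, hA, hC]
        linear_combination l * e1
      rw [e, hr, ← hd2]
      field_simp
    have hqa : (1 + (a1 * (l * w1 - (a1 - b1)) + a2 * (l * w2 - (a2 - b2))
        + a3 * (l * w3 - (a3 - b3))) / (d * √(1 + η * (l / d) ^ 2))) / 2 = qq η r (l / d) := by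
      rw [han]
      unfold qq
      field_simp
    have hqb : (1 + (b1 * (l * w1 - (a1 - b1)) + b2 * (l * w2 - (a2 - b2))
        + b3 * (l * w3 - (a3 - b3))) / (d * √(1 + η * (l / d) ^ 2))) / 2 = qq η s (l / d) := by
      rw [hbn]
      unfold qq
      field_simp
    have hαβ : p 1 + p 0 = 1 := by linarith
    have hqr := qq_mem (u := l / d) hη0 hr2'
    have hqs := qq_mem (u := l / d) hη0 hs2'
    unfold JJ
    rw [qq_affine η s r (p 1) (p 0) (l / d) hαβ]
    rcases hq0 with hq0 | hq0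
    · have ea := hq0 a1 a2 a3
      have eb := hq0 b1 b2 b3
      rw [hqa] at ea
      rw [hqb] at eb
      apply mutualInfo_eq (hp 0) (hp 1) hp1 hqr hqs
      · simp only [joint, Matrix.cons_val_zero]
        rw [ea]
      · simp only [joint, Matrix.cons_val_zero]
        rw [hq1, ea]
      · simp only [joint, Matrix.cons_val_one, Matrix.cons_val_zero]
        rw [eb]
      · simp only [joint, Matrix.cons_val_one, Matrix.cons_val_zero]
        rw [hq1, eb]
    · have ea := hq0 a1 a2 a3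
      have eb := hq0 b1 b2 b3
      rw [hqa] at ea
      rw [hqb] at eb
      have h := mutualInfo_eq (J := joint (bl 1 a1 a2 a3) (bl 1 b1 b2 b3) p P)
        (q0 := 1 - qq η r (l / d)) (q1 := 1 - qq η s (l / d)) (hp 0) (hp 1) hp1
        ⟨by linarith [hqr.2], by linarith [hqr.1]⟩ ⟨by linarith [hqs.2], by linarith [hqs.1]⟩
        (by
          simp only [joint, Matrix.cons_val_zero]
          rw [ea])
        (by
          simp only [joint, Matrix.cons_val_zero]
          rw [hq1, ea])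
        (by
          simp only [joint, Matrix.cons_val_one, Matrix.cons_val_zero]
          rw [eb])
        (by
          simp only [joint, Matrix.cons_val_one, Matrix.cons_val_zero]
          rw [hq1, eb])
      rw [h, binEntropy_one_sub, binEntropy_one_sub]
      have e : p 1 * (1 - qq η s (l / d)) + p 0 * (1 - qq η r (l / d))
          = 1 - (p 1 * qq η s (l / d) + p 0 * qq η r (l / d)) := by
        linear_combination hαβ
      rw [e, binEntropy_one_sub]

/-- **Main theorem.** For every qubit dichotomy `(ρ, σ; p₀, p₁)`: `λ_* > 0`, the matrices `H(λ)`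
have eigenprojector pairs, and for every choice of eigenprojectors the mutual information
`λ ↦ I(λ)` is pseudo-concave on `[-λ_*, λ_*]`. -/
theorem result (ρ σ : M2) (hρ : IsDensity ρ) (hσ : IsDensity σ) (hne : ρ ≠ σ)
    (p : Fin 2 → ℝ) (hp : ∀ x, 0 ≤ p x) (hp1 : p 0 + p 1 = 1) :
    0 < lamStar ρ σ ∧
    (∀ l : ℝ, ∃ P : Fin 2 → M2, IsEigenMeasurement (HH ρ σ l) P) ∧
    ∀ P : ℝ → Fin 2 → M2, (∀ l, IsEigenMeasurement (HH ρ σ l) (P l)) →
      PseudoConcaveOn (fun l => mutualInfo (joint ρ σ p (P l)))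
        (Icc (-lamStar ρ σ) (lamStar ρ σ)) := by
  obtain ⟨a1, a2, a3, rfl, ha⟩ := density_bl hρ
  obtain ⟨b1, b2, b3, rfl, hb⟩ := density_bl hσ
  obtain ⟨η, s, r, d, hη0, hη1, hs, hr, hsr, hd, hlam, hlam2, hex, hI⟩ :=
    info_eq ha hb hne hp hp1
  refine ⟨hlam, hex, ?_⟩
  intro P hP
  obtain ⟨J', hJ', hmain⟩ := real_main hη0 hη1 hs hr hsr (hp 1) (hp 0) (by linarith)
  have hfun : (fun l => mutualInfo (joint (bl 1 a1 a2 a3) (bl 1 b1 b2 b3) p (P l)))
      = fun l => JJ η s r (p 1) (p 0) (l / d) := by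
    funext l
    exact hI l (P l) (hP l)
  rw [hfun]
  have hder : ∀ l, HasDerivAt (fun l => JJ η s r (p 1) (p 0) (l / d)) (J' (l / d) * (1 / d)) l := by
    intro l
    exact HasDerivAt.comp l (hJ' (l / d)) ((hasDerivAt_id l).div_const d)
  have hrange : ∀ l ∈ Icc (-lamStar (bl 1 a1 a2 a3) (bl 1 b1 b2 b3))
      (lamStar (bl 1 a1 a2 a3) (bl 1 b1 b2 b3)), (1 - η) * (l / d) ^ 2 ≤ 1 := by
    intro l hl
    have h1 : l ^ 2 ≤ lamStar (bl 1 a1 a2 a3) (bl 1 b1 b2 b3) ^ 2 := sq_le_sq' hl.1 hl.2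
    rw [div_pow, ← mul_div_assoc, div_le_one (by positivity), ← hlam2]
    exact mul_le_mul_of_nonneg_left h1 (by linarith)
  refine ⟨fun l _ => (hder l).differentiableAt.differentiableWithinAt, ?_⟩
  intro x hx y hy hxy
  rw [(hder x).hasDerivWithinAt.derivWithin
    (uniqueDiffOn_Icc (by linarith) x hx)] at hxy
  apply hmain (x / d) (y / d) (hrange x hx) (hrange y hy)
  have e : J' (x / d) * (y / d - x / d) = J' (x / d) * (1 / d) * (y - x) := by
    field_simp
  rw [e]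
  exact hxy

end

end Pool.Agent.Results.MP_6f99f7_mp.PseudoConcave
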